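import Pool.Agent.N121.OC.Arr
import Pool.Agent.N121.BF.Fin

/-!
# Relations between the periods of almost all tuples of affine hyperelliptic curves
-/

set_option autoImplicit false
set_option linter.unusedSectionVars false

open Complex Set Filter Topology NumberField Matrix MeasureTheory

namespace Pool.Agent.N121.OC

open Pool.Agent.Y118.HP (jm jm_apply jm_det jm_transpose jm_diag jm_map qm bm bm_eq aeval_int_map)
open Pool.Agent.Y890.MV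
open Pool.Agent.Y890.SM
open Pool.Agent.Y124 (Cov)
open Pool.Agent.N121.OH (ptS TorS BX sc cx sd sd_pos sd_one sd2_one lt_sd' sd_le house_int mem_BX exists_M fsl
  few_cov few_near)
open Pool.Agent.N121.AH (mi mm mm_even UU PA U2 fp TorG rs PM scp q0 q0_map er ep PM_mem torG_iff exists_X0 Tp sc_mem
  fp_er er_order lead_ne growth)
open Pool.Agent.N121.BF (Lm Lm_smul bfF XB wt wt_pos xq xq_cx xq_ht null_B)

variable {ι : Type} {n : ι → ℕ} {q : ℕ} [Fintype ι] [DecidableEq ι]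

/-- the relations at a tuple of curves -/
def GoodX (n : ι → ℕ) (k : ℕ) (H : ℝ) (ξ : Fin k → ℂ) (a : (Σ i, Fin (n i + 2)) → ℂ) : Prop :=
  ∃ e : ∀ i, Fin (n i + 1) → ℂ,
    (∀ i, a ⟨i, Fin.last (n i + 1)⟩ ≠ 0 ∧
      fp (pj a i) = Polynomial.C (a ⟨i, Fin.last (n i + 1)⟩) * OH.rp (e i) ∧
      ∀ r s, r < s → (e i r).re + (e i r).im < (e i s).re + (e i s).im) ∧
    (PX n a e, tpi) ∈ TorY n ∧
    (∀ (K : Type) [Field K] [NumberField K] (φ : K →+* ℂ) (P : MvPolynomial (Option (EX n)) (𝓞 K)),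
      Module.finrank ℚ K ≤ k → P.totalDegree ≤ k →
      (∀ s (ψ : K →+* ℂ), ‖ψ (algebraMap (𝓞 K) K (P.coeff s))‖ ≤ H) →
      MvPolynomial.eval (opt (PX n a e) tpi) (P.map (φ.comp (algebraMap (𝓞 K) K))) = 0 →
      ∀ x ∈ TorY n, MvPolynomial.eval (opt x.1 x.2) (P.map (φ.comp (algebraMap (𝓞 K) K))) = 0) ∧
    ∀ P : Fin k → MvPolynomial (EX n) ℤ, (∀ a, (P a).totalDegree ≤ k) → (∀ a s, |(((P a).coeff s : ℤ) : ℝ)| ≤ H) →
      ∑ b, ξ b * MvPolynomial.aeval (PX n a e) (P b) = 0 →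
      ∀ Y, (Y, tpi) ∈ TorY n → ∑ b, ξ b * MvPolynomial.aeval Y (P b) = 0

variable {w : Fin (q + 1) → ℂ} {hw : w 0 = 1}

/-- outside the exceptional sets -/
theorem good_of [Nonempty ι] (k : ℕ) : ∃ C : ℕ, ∀ T : ℕ, C ≤ T → ∀ (ξ : Fin k → ℂ) (Lc : Set (XB n q → ℂ)),
    Lc ⊆ (bfF n w hw).U → ∀ a ∈ BX (wt n q) T, cx (sc (wt n q) T a) ∈ Lc →
    xq T a ∉ ExcT k (fX n w hw) (TorX n w hw) Lc ℚ (algebraMap ℚ ℂ) ξ ((exLT (EX n) k + k : ℕ) : ℝ) (Tp T) →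
    xq T a ∉ ExcT (k * k) (fX n w hw) (TorX n w hw) Lc ℚ (algebraMap ℚ ℂ)
      (fun a : Fin (k * k + 1) => tpi ^ (a : ℕ)) ((exLT (EX n) (k * k) + (k * k + 1) : ℕ) : ℝ) (Tp T) →
    GoodX n k ((T : ℝ) ^ k) ξ (Lm w fun p => ((a p : ℤ) : ℂ)) := by
  classical
  obtain ⟨C, hC⟩ := exists_M (σ := Option (EX n)) k
  refine ⟨max 1 ⌈C⌉₊, fun T hT ξ Lc hL a ha haL hE1 hE2 => ?_⟩
  have hT1 : 1 ≤ T := (le_max_left _ _).trans hT
  have hTC : C ≤ T := (Nat.le_ceil C).trans (by exact_mod_cast (le_max_right _ _).trans hT)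
  have hS : 0 < sd T := sd_pos T
  have hS0 : (0 : ℝ) < (sd T : ℝ) := by exact_mod_cast hS
  set y : XB n q → ℂ := fun p => (algebraMap ℚ ℂ) (xq T a p) with hy
  have hyL : y ∈ Lc := by
    rw [hy, xq_cx]
    exact haL
  set x : (Σ i, Fin (n i + 2)) → ℂ := Lm w y with hx
  have hxU : x ∈ UU n := hL hyL
  have hsize : ∀ (L m : ℕ) (y : ℝ), 0 ≤ y → y ≤ (T : ℝ) ^ m →
      (sd T : ℝ) ^ (2 * L) * y ≤ Tp T ^ ((L + m : ℕ) : ℝ) := by
    intro L m y hy hym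
    rw [Real.rpow_natCast, pow_add, pow_mul]
    have h2 : (T : ℝ) ^ m ≤ Tp T ^ m := pow_le_pow_left₀ (Nat.cast_nonneg _) (lt_sd' T).le _
    exact mul_le_mul le_rfl (hym.trans h2) hy (by unfold Tp; positivity)
  have hscp : scp n (sd T) x = Lm w fun p => ((a p : ℤ) : ℂ) := by
    have h1 : ((sd T : ℕ) : ℂ) ≠ 0 := by exact_mod_cast hS.ne'
    have h2 : (fun p => ((((sd T : ℝ)) ^ 2 : ℝ) : ℂ) * y p) = fun p => ((a p : ℤ) : ℂ) := by
      funext p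
      rw [hy]
      simp only [xq]
      rw [map_div₀, map_pow, map_natCast, eq_ratCast]
      push_cast
      field_simp
    rw [← h2, Lm_smul]
    rfl
  have hmem : (PX n (scp n (sd T) x) (fun i => er (pj (scp n (sd T) x) i)), tpi) ∈ TorY n := PM_mem hS0 hxU
  rw [hscp] at hmem
  set A : (Σ i, Fin (n i + 2)) → ℂ := Lm w fun p => ((a p : ℤ) : ℂ) with hA
  have hU2 : ∀ i, pj A i ∈ U2 (n i) := by
    intro i
    rw [← hscp]
    exact (sc_mem hS0 (hxU i)).1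
  refine ⟨fun i => er (pj A i), fun i => ⟨lead_ne (hU2 i), fp_er (hU2 i), er_order (hU2 i)⟩, hmem, ?_, ?_⟩
  · intro K _ _ φ P hK hPd hPc hP0
    obtain ⟨M, hM, hMd, hMc⟩ := hC T hTC K hK P hPd hPc
    -- the norm vanishes at the period point
    have hM0 : MvPolynomial.aeval (opt (PX n A (fun i => er (pj A i))) tpi) M = 0 := by
      rw [aeval_int_map, hM, map_prod]
      refine Finset.prod_eq_zero (Finset.mem_univ φ) ?_
      rw [MvPolynomial.aeval_eq_eval]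
      exact hP0
    rw [arT_abs M hMd, ← hscp] at hM0
    have hv := good_full (w := w) (hw := hw) hS (xq_ht ha) hyL hL hE2
      (fun l (b : Fin (k * k + 1)) => M.coeff (oslT l b)) (fun l b => hsize _ _ _ (abs_nonneg _) (hMc _)) hM0
    choose X0 hX0 using fun i => exists_X0 (n i)
    have hdes := descent_free (n := mi n) (fun i => mm_even (n i)) P φ hX0 (fun z u hz => by
      have h1 := hv (Sum.elim (fun q : Ix (mi n) => z.1 q.1 q.2.1 q.2.2) u, z.2) (torG_iff.2 hz)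
      rw [← hM]
      have h2 := arT_abs M hMd (Sum.elim (fun q : Ix (mi n) => z.1 q.1 q.2.1 q.2.2) u) z.2
      rw [h1, aeval_int_map, MvPolynomial.aeval_eq_eval] at h2
      exact h2)
    intro z hz
    have h1 := hdes (fun i => bl (fun s => z.1 (Sum.inl s)) i, z.2) (fun s => z.1 (Sum.inr s)) (torG_iff.1 hz)
    have h2 : Sum.elim (fun q : Ix (mi n) => bl (fun s => z.1 (Sum.inl s)) q.1 q.2.1 q.2.2)
        (fun s => z.1 (Sum.inr s)) = z.1 := Sum.elim_comp_inl_inr z.1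
    simp only at h1
    rw [h2] at h1
    exact h1
  · intro P hPd hPc hP0 Y hY
    rw [arT_rel P hPd] at hP0 ⊢
    rw [← hscp] at hP0
    exact (good_arr (w := w) (hw := hw) hS (xq_ht ha) hyL hL hE1 (fun l b => (P b).coeff (fsl l))
      (fun l b => hsize _ _ _ (abs_nonneg _) (hPc _ _)) hP0).1 Y hY

/-- the theorem for fixed parameters -/
theorem step [Nonempty ι] {w : Fin (q + 1) → ℂ} (hw : w 0 = 1) (k : ℕ) {ε : ℝ} (hε : 0 < ε) : ∃ T₀ : ℕ, ∀ T : ℕ, T₀ ≤ T →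
    ∀ ξ : Fin k → ℂ, ∃ E ⊆ BX (wt n q) T, (E.card : ℝ) ≤ ε * (BX (wt n q) T).card ∧
      ∀ a ∈ BX (wt n q) T, a ∉ E → GoodX n k ((T : ℝ) ^ k) ξ (Lm w fun p => ((a p : ℤ) : ℂ)) := by
  classical
  obtain ⟨i0⟩ := ‹Nonempty ι›
  have : Nonempty ι := ⟨i0⟩
  have : Nonempty (XB n q) := ⟨(⟨i0, 0⟩, 0)⟩
  set F := bfF n w hw with hF
  -- points near the boundary
  obtain ⟨m, hm0, hm⟩ := few_near (U := F.U) F.isOpen (null_B n hw) (w := wt n q) wt_pos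
    (ε := ε / 3) (by positivity)
  set Lc := InnerM F.U m with hLc
  have hLc1 : IsCompact Lc := innerM_compact _ _
  have hLc2 : Lc ⊆ F.U := innerM_sub _ hm0
  have hf : ∀ s, AnalyticOnNhd ℂ (fX n w hw s) F.U := fun s => fX_an s
  have hη : 0 < ((2 : ℝ)⁻¹) := by positivity
  obtain ⟨D1, C1, T1, hC1, -, H1⟩ := excT_cov F.conn F.isOpen F.nonempty hf torX Lc hLc1 hLc2 k (Fin k) 1
    ((exLT (EX n) k + k : ℕ) : ℝ) _ hη
  obtain ⟨D2, C2, T2, hC2, -, H2⟩ := excT_cov F.conn F.isOpen F.nonempty hf torX Lc hLc1 hLc2 (k * k)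
    (Fin (k * k + 1)) 1 ((exLT (EX n) (k * k) + (k * k + 1) : ℕ) : ℝ) _ hη
  obtain ⟨T3, h3⟩ := growth C1 hC1 D1 (ε := ε / 3) (by positivity)
  obtain ⟨T4, h4⟩ := growth C2 hC2 D2 (ε := ε / 3) (by positivity)
  obtain ⟨T5, h5⟩ := good_of (n := n) (w := w) (hw := hw) k
  refine ⟨max 1 (max m (max ⌈T1⌉₊ (max ⌈T2⌉₊ (max T3 (max T4 T5))))), fun T hT ξ => ?_⟩
  simp only [max_le_iff] at hT
  obtain ⟨hT1, hTm, hT2, hT3, hT4, hT5, hT6⟩ := hT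
  have hTT : (T : ℝ) ≤ Tp T := (lt_sd' T).le
  have hc1 := H1 ℚ (by simp) (algebraMap ℚ ℂ) ξ (Tp T)
    (((Nat.le_ceil T1).trans (by exact_mod_cast hT2)).trans hTT)
  have hc2 := H2 ℚ (by simp) (algebraMap ℚ ℂ) (fun a : Fin (k * k + 1) => tpi ^ (a : ℕ)) (Tp T)
    (((Nat.le_ceil T2).trans (by exact_mod_cast hT3)).trans hTT)
  set E1 := (BX (wt n q) T).filter fun a => cx (sc (wt n q) T a) ∈
    ((fun (s : XB n q → ℚ) j => (algebraMap ℚ ℂ) (s j)) '' ExcT k (fX n w hw) (TorX n w hw) Lc ℚ (algebraMap ℚ ℂ) ξ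
      ((exLT (EX n) k + k : ℕ) : ℝ) (Tp T)) with hE1
  set E2 := (BX (wt n q) T).filter fun a => cx (sc (wt n q) T a) ∈
    ((fun (s : XB n q → ℚ) j => (algebraMap ℚ ℂ) (s j)) '' ExcT (k * k) (fX n w hw) (TorX n w hw) Lc ℚ
      (algebraMap ℚ ℂ) (fun a : Fin (k * k + 1) => tpi ^ (a : ℕ)) ((exLT (EX n) (k * k) + (k * k + 1) : ℕ) : ℝ)
      (Tp T)) with hE2
  set E0 := (BX (wt n q) T).filter fun a => cx (sc (wt n q) T a) ∉ Lc with hE0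
  have hb0 : (E0.card : ℝ) ≤ ε / 3 * (BX (wt n q) T).card :=
    hm T hTm E0 (Finset.filter_subset _ _) (fun a ha => (Finset.mem_filter.1 ha).2)
  have hb1 : (E1.card : ℝ) ≤ ε / 3 * (BX (wt n q) T).card :=
    (few_cov (wt n q) wt_pos hc1 hT1).trans (mul_le_mul_of_nonneg_right (h3 T hT4) (Nat.cast_nonneg _))
  have hb2 : (E2.card : ℝ) ≤ ε / 3 * (BX (wt n q) T).card :=
    (few_cov (wt n q) wt_pos hc2 hT1).trans (mul_le_mul_of_nonneg_right (h4 T hT5) (Nat.cast_nonneg _))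
  refine ⟨E0 ∪ (E1 ∪ E2), ?_, ?_, ?_⟩
  · exact Finset.union_subset (Finset.filter_subset _ _)
      (Finset.union_subset (Finset.filter_subset _ _) (Finset.filter_subset _ _))
  · have h6 : ((E0 ∪ (E1 ∪ E2)).card : ℝ) ≤ E0.card + (E1.card + E2.card) := by
      exact_mod_cast (Finset.card_union_le _ _).trans (Nat.add_le_add_left (Finset.card_union_le _ _) _)
    calc ((E0 ∪ (E1 ∪ E2)).card : ℝ) ≤ E0.card + (E1.card + E2.card) := h6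
      _ ≤ ε / 3 * (BX (wt n q) T).card + (ε / 3 * (BX (wt n q) T).card + ε / 3 * (BX (wt n q) T).card) := by gcongr
      _ = ε * (BX (wt n q) T).card := by ring
  · intro a ha hnot
    rw [Finset.mem_union, Finset.mem_union, not_or, not_or] at hnot
    obtain ⟨hn0, hn1, hn2⟩ := hnot
    have haL : cx (sc (wt n q) T a) ∈ Lc := by
      by_contra hcon
      exact hn0 (Finset.mem_filter.2 ⟨ha, hcon⟩)
    refine h5 T hT6 ξ Lc hLc2 a ha haL ?_ ?_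
    · intro hcon
      exact hn1 (Finset.mem_filter.2 ⟨ha, ⟨_, hcon, xq_cx T a⟩⟩)
    · intro hcon
      exact hn2 (Finset.mem_filter.2 ⟨ha, ⟨_, hcon, xq_cx T a⟩⟩)

/-- **Main theorem.** -/
theorem main [Nonempty ι] (n : ι → ℕ) {w : Fin (q + 1) → ℂ} (hw : w 0 = 1) : ∃ ω : ℕ → ℕ, Tendsto ω atTop atTop ∧ ∀ ε : ℝ, 0 < ε →
    ∃ T₀ : ℕ, ∀ T : ℕ, T₀ ≤ T → ∀ ξ : Fin (ω T) → ℂ, ∃ E ⊆ BX (wt n q) T,
      (E.card : ℝ) ≤ ε * (BX (wt n q) T).card ∧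
      ∀ a ∈ BX (wt n q) T, a ∉ E → GoodX n (ω T) ((T : ℝ) ^ ω T) ξ (Lm w fun p => ((a p : ℤ) : ℂ)) := by
  classical
  obtain ⟨ω, T₀, hω, -, H⟩ := Pool.Agent.Y890.SP.exists_omega
    (fun k (T : ℝ) => ∀ ξ : Fin k → ℂ, ∃ E ⊆ BX (wt n q) ⌊T⌋₊,
      (E.card : ℝ) ≤ ((k : ℝ) + 1)⁻¹ * (BX (wt n q) ⌊T⌋₊).card ∧
      ∀ a ∈ BX (wt n q) ⌊T⌋₊, a ∉ E → GoodX n k ((⌊T⌋₊ : ℝ) ^ k) ξ (Lm w fun p => ((a p : ℤ) : ℂ))) (fun k => by
    obtain ⟨T₀, hT₀⟩ := step (n := n) hw (k + 1) (ε := (((k + 1 : ℕ) : ℝ) + 1)⁻¹) (by positivity)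
    refine ⟨T₀, fun T hT => ?_⟩
    exact hT₀ ⌊T⌋₊ (Nat.le_floor hT))
  refine ⟨fun T => ω (T : ℝ), hω.comp tendsto_natCast_atTop_atTop, fun ε hε => ?_⟩
  obtain ⟨k, hk⟩ := exists_nat_gt ε⁻¹
  have h1 : ∀ᶠ T : ℕ in atTop, k ≤ ω (T : ℝ) := (hω.comp tendsto_natCast_atTop_atTop).eventually_ge_atTop k
  obtain ⟨T₁, hT₁⟩ := eventually_atTop.1 h1
  refine ⟨max T₁ ⌈T₀⌉₊, fun T hT ξ => ?_⟩
  have hT1 : T₁ ≤ T := (le_max_left _ _).trans hT
  have hT0 : T₀ ≤ (T : ℝ) := (Nat.le_ceil T₀).trans (by exact_mod_cast (le_max_right _ _).trans hT)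
  obtain ⟨-, h2⟩ := H (T : ℝ) hT0
  obtain ⟨E, hE1, hE2, hE3⟩ := h2 ξ
  rw [Nat.floor_natCast] at hE1 hE2 hE3
  refine ⟨E, hE1, hE2.trans (mul_le_mul_of_nonneg_right ?_ (Nat.cast_nonneg _)), hE3⟩
  have h3 : (k : ℝ) ≤ ω (T : ℝ) := by exact_mod_cast hT₁ T hT1
  rw [inv_le_comm₀ (by positivity) hε]
  linarith

end Pool.Agent.N121.OC
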