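import Pool.Agent.N121.OC.Free
import Pool.Agent.N121.BF.Main

/-!
# Relations given by arrays of integers, at the scaled points
-/

set_option autoImplicit false
set_option linter.unusedSectionVars false

open Complex Set Filter Topology NumberField

namespace Pool.Agent.N121.OC

open Pool.Agent.Y118.HP (qm bm dl dl_ne perC)
open Pool.Agent.Y890.MV
open Pool.Agent.Y890.SM
open Pool.Agent.Y890.SP (Qbar)
open Pool.Agent.N121.OH (perF perF_eq rt_mem PE)
open Pool.Agent.N121.AH (mi mm cst UU PA PG U2 fp TorG rs PM scp rs_PM q0 q0_map er ep perG perG_eq scf scf_scale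
  scf_ne lead_ne sc_mem er_scale rs_tor u0 w0 bq ahF)
open Pool.Agent.N121.BF (Lm LmC LmC_apply bfF sbl sh Lm_sh sh_self evX_sbl XB F0_tor Q_eval)

variable {ι : Type} {n : ι → ℕ} [Fintype ι] [DecidableEq ι] {q : ℕ} {w : Fin (q + 1) → ℂ} {hw : w 0 = 1}

/-- the periods of all kinds -/
noncomputable def fX (n : ι → ℕ) (w : Fin (q + 1) → ℂ) (hw : w 0 = 1) : EX n → (XB n q → ℂ) → ℂ :=
  Sum.elim (bfF n w hw).f (fun s y => fr n s (Lm w y))

/-- the torsor -/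
def TorX (n : ι → ℕ) (w : Fin (q + 1) → ℂ) (hw : w 0 = 1) (x : XB n q → ℂ) : Set (EX n → ℂ) :=
  {Y | (fun s => Y (Sum.inl s)) ∈ (bfF n w hw).Tor x}

theorem torX : TorM (bfF n w hw).U (fX n w hw) (TorX n w hw) := by
  refine torFree (bfF n w hw).tor _ ?_
  intro p hp y hy z
  have h1 := free_prod (MvPolynomial.map (sbl w y) p) (fun x hx => by
    rw [evX_sbl]
    have h2 : sh w y x ∈ (bfF n w hw).U := by
      show Lm w (sh w y x) ∈ UU n
      rw [Lm_sh hw]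
      exact hx
    have h3 := hp _ h2
    have h4 : (fun s => (bfF n w hw).f s (sh w y x)) = fun s => (ahF n).f s x := by
      funext s
      show PA (pj (Lm w (sh w y x)) s.1) s.2.1 s.2.2 = PA (pj x s.1) s.2.1 s.2.2
      rw [Lm_sh hw]
    have h5 : (fun s => fr n s (Lm w (sh w y x))) = fun s => fr n s x := by
      rw [Lm_sh hw]
    rw [h4, h5] at h3
    exact h3) (Lm w y) hy z
  rw [evX_sbl, sh_self] at h1
  exact h1

theorem fX_an (s : EX n) : AnalyticOnNhd ℂ (fX n w hw s) (bfF n w hw).U := by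
  rcases s with s | s
  · exact (bfF n w hw).an s.1 s.2.1 s.2.2
  · intro y hy
    have h1 := fr_an s (Lm w y) hy
    have h2 : AnalyticAt ℂ (fun y => Lm w y) y := by
      have h3 : (fun y : (Σ i, Fin (n i + 2)) × Fin (q + 1) → ℂ => Lm w y) = fun y => LmC w y := by
        funext y
        rw [LmC_apply]
      rw [h3]
      exact (LmC w).analyticAt y
    exact AnalyticAt.fun_comp (g := fun x => fr n s x) h1 h2

/-- the signs of the exponents -/
def exX (n : ι → ℕ) : EX n → Bool := Sum.elim (fun p => decide ((p.2.2 : ℕ) < n p.1 / 2)) (fun _ => true)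

/-- the periods of the third kind -/
noncomputable def PT (n : ι → ℕ) (a : (Σ i, Fin (n i + 2)) → ℂ) (e : ∀ i, Fin (n i + 1) → ℂ) (s : Fr n) : ℂ :=
  perG (a ⟨s.1, Fin.last (n s.1 + 1)⟩) (e s.1) (cst s.2.2) (gx s.2.1)

/-- all periods -/
noncomputable def PX (n : ι → ℕ) (a : (Σ i, Fin (n i + 2)) → ℂ) (e : ∀ i, Fin (n i + 1) → ℂ) : EX n → ℂ :=
  Sum.elim (fun p => PM n a e p.1 p.2.1 p.2.2) (PT n a e)

/-- the values of the functions -/
noncomputable def fA (n : ι → ℕ) (x : (Σ i, Fin (n i + 2)) → ℂ) : EX n → ℂ :=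
  Sum.elim (fun p => PA (pj x p.1) p.2.1 p.2.2) (fun t => fr n t x)

theorem fX_fA (y : XB n q → ℂ) : (fun s => fX n w hw s y) = fA n (Lm w y) := by
  funext s
  rcases s with s | s <;> rfl

/-- **scaling of the periods** -/
theorem PX_scale {s : ℝ} (hs : 0 < s) {x : (Σ i, Fin (n i + 2)) → ℂ} (hx : x ∈ UU n) :
    PX n (scp n s x) (fun i => er (pj (scp n s x) i)) = rsT (exX n) s (fA n x) := by
  funext t
  rcases t with ⟨i, l, j⟩ | ⟨i, u, l⟩
  · have h1 := congrFun (rs_PM hs hx) i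
    show PM n (scp n s x) (fun i => er (pj (scp n s x) i)) i l j = _
    rw [h1]
    show (s : ℂ) ^ ep (n i) j * PA (pj x i) l j = _
    unfold rsT ep exX fA
    simp only [Sum.elim_inl, decide_eq_true_eq]
  · have hxi := hx i
    have hc := lead_ne hxi
    have h2 : er (pj (scp n s x) i) = er (pj x i) := er_scale hs hxi
    have h3 : (scp n s x) ⟨i, Fin.last (n i + 1)⟩ = ((s ^ 2 : ℝ) : ℂ) * pj x i (Fin.last (n i + 1)) := rfl
    show perG ((scp n s x) ⟨i, Fin.last (n i + 1)⟩) (er (pj (scp n s x) i)) (cst l) (gx u) = _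
    rw [h2, h3, perG_eq, scf_scale hs hc]
    have h4 : rsT (exX n) s (fA n x) (Sum.inr ⟨i, (u, l)⟩) = (s : ℂ)⁻¹ * fT (pj x i) (u, l) := by
      unfold rsT exX fA fr
      simp only [Sum.elim_inr, if_true]
      rw [_root_.zpow_neg_one]
    have h5 := perF_eq (rt_mem hxi.2) (cst l) (gx u)
    have h6 : perF (er (pj x i)) (cst l) (gx u) = _ := h5
    rw [h4, h6]
    unfold fT PG
    rw [Matrix.smul_apply, smul_eq_mul, mul_inv]
    have h7 : PE w0 (OH.rt u0 (bq (pj x i))) (cst l) (gx u) = dl (cst l) *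
      (((1 + I : ℂ) ^ (1 / 2 : ℂ)) ^ (2 * ((gx u : Fin (n i)) : ℤ) + 1 - n i) * perC (OH.rt u0 (bq (pj x i))) (cst l) (gx u)) := rfl
    rw [h7]
    ring

/-- the torsor -/
def TorY (n : ι → ℕ) : Set ((EX n → ℂ) × ℂ) :=
  {p | ((fun i => bl (fun s => p.1 (Sum.inl s)) i), p.2) ∈ TorG n}

theorem rsT_tor {s : ℝ} (hs : 0 < s) {Y : EX n → ℂ} {μ : ℂ} :
    (rsT (exX n) s Y, μ) ∈ TorY n ↔ (Y, μ) ∈ TorY n := by
  unfold TorY
  simp only [Set.mem_ofPred_eq]
  have h1 : (fun i => bl (fun t => rsT (exX n) s Y (Sum.inl t)) i) =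
      rs n s (fun i => bl (fun t => Y (Sum.inl t)) i) := by
    funext i
    ext l j
    show rsT (exX n) s Y (Sum.inl ⟨i, (l, j)⟩) = (s : ℂ) ^ ep (n i) j * Y (Sum.inl ⟨i, (l, j)⟩)
    unfold rsT ep exX
    simp only [Sum.elim_inl, decide_eq_true_eq]
  rw [h1, rs_tor hs]

theorem torX_iff {x : XB n q → ℂ} {Y : EX n → ℂ} : Y ∈ TorX n w hw x ↔ (Y, tpi) ∈ TorY n := by
  unfold TorX TorY
  simp only [Set.mem_ofPred_eq]
  exact F0_tor

/-- the integral array with values in the ring of integers of `ℚ` -/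
def zcX {k : ℕ} {h : Type} (S : ℕ) (c : (EX n → Fin (k + 1)) → h → ℤ) (l : EX n → Fin (k + 1)) (a : h) : 𝓞 ℚ :=
  ((S : ℤ) ^ exqT (exX n) l * c l a : ℤ)

theorem zcX_map {k : ℕ} {h : Type} (S : ℕ) (c : (EX n → Fin (k + 1)) → h → ℤ) (l : EX n → Fin (k + 1)) (a : h)
    (φ : ℚ →+* ℂ) : φ (zcX S c l a : ℚ) = (S : ℂ) ^ exqT (exX n) l * (c l a : ℂ) := by
  unfold zcX
  simp

/-- **Relations given by arrays**: outside the exceptional sets of the family, at the scaled point -/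
theorem good_arr {k : ℕ} {h : Type} [Fintype h] {v : h → ℂ} {S : ℕ} (hS : 0 < S)
    {xq : XB n q → ℚ} {Lc : Set (XB n q → ℂ)} {A T : ℝ}
    (h1 : ∀ j, Y120.HtLe ℚ T (xq j)) (h2 : (fun j => (algebraMap ℚ ℂ) (xq j)) ∈ Lc) (hL : Lc ⊆ (bfF n w hw).U)
    (h3 : xq ∉ ExcT k (fX n w hw) (TorX n w hw) Lc ℚ (algebraMap ℚ ℂ) v A T)
    (c : (EX n → Fin (k + 1)) → h → ℤ) (hc : ∀ l a, (S : ℝ) ^ (2 * exLT (EX n) k) * |(c l a : ℝ)| ≤ T ^ A)
    (h4 : arT (fun l a => (c l a : ℂ)) v (PX n (scp n S (Lm w fun j => (algebraMap ℚ ℂ) (xq j)))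
      (fun i => er (pj (scp n S (Lm w fun j => (algebraMap ℚ ℂ) (xq j))) i))) = 0) :
    (∀ Y, (Y, tpi) ∈ TorY n → arT (fun l a => (c l a : ℂ)) v Y = 0) ∧
    ∀ Y ∈ TorX n w hw (fun j => (algebraMap ℚ ℂ) (xq j)),
      arT (fun l a => (algebraMap ℚ ℂ) (zcX S c l a : ℚ)) v Y = 0 := by
  classical
  set x : (Σ i, Fin (n i + 2)) → ℂ := Lm w (fun j => (algebraMap ℚ ℂ) (xq j)) with hx
  have hS0 : (0 : ℝ) < (S : ℝ) := by exact_mod_cast hS
  have hSC : ((S : ℝ) : ℂ) ≠ 0 := by exact_mod_cast hS0.ne'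
  have hxU : x ∈ UU n := hL h2
  have hS1 : (1 : ℝ) ≤ S := by exact_mod_cast hS
  have hcast : (fun (l : EX n → Fin (k + 1)) (a : h) => ((S : ℝ) : ℂ) ^ exqT (exX n) l * (c l a : ℂ)) =
      fun l a => (algebraMap ℚ ℂ) (zcX S c l a : ℚ) := by
    funext l a
    rw [zcX_map]
    push_cast
    rfl
  have key : ∀ Y ∈ TorX n w hw (fun j => (algebraMap ℚ ℂ) (xq j)),
      arT (fun l a => (algebraMap ℚ ℂ) (zcX S c l a : ℚ)) v Y = 0 := by
    by_contra hne
    apply h3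
    refine ⟨h1, h2, zcX S c, ?_, ?_, hne⟩
    · intro l a φ
      rw [zcX_map, norm_mul, norm_pow]
      have e1 : ‖(S : ℂ)‖ = (S : ℝ) := by simp
      have e2 : ‖(c l a : ℂ)‖ = |(c l a : ℝ)| := by
        rw [← Complex.ofReal_intCast, Complex.norm_real, Real.norm_eq_abs]
      rw [e1, e2]
      refine le_trans ?_ (hc l a)
      exact mul_le_mul_of_nonneg_right (pow_le_pow_right₀ hS1 (exqT_le _ l)) (abs_nonneg _)
    · have e1 := arT_scale (exX n) hS0 (fun l a => (c l a : ℂ)) v (fA n x)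
      rw [← PX_scale hS0 hxU, h4, mul_zero, hcast] at e1
      have e2 := congrFun (fX_fA (n := n) (w := w) (hw := hw) (fun j => (algebraMap ℚ ℂ) (xq j)))
      have e3 : arT (fun l a => (algebraMap ℚ ℂ) (zcX S c l a : ℚ)) v
          (fun s => fX n w hw s (fun j => (algebraMap ℚ ℂ) (xq j))) = 0 := by
        rw [fX_fA]
        exact e1.symm
      exact e3
  refine ⟨fun Y hY => ?_, key⟩
  set Z : EX n → ℂ := fun y => ((S : ℝ) : ℂ) ^ (-(if exX n y then (-1 : ℤ) else 1)) * Y y with hZ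
  have hZY : rsT (exX n) S Z = Y := rsT_inv (exX n) hS0 Y
  rw [← hZY, rsT_tor hS0] at hY
  have h6 := key _ (torX_iff.2 hY)
  have e1 := arT_scale (exX n) hS0 (fun l a => (c l a : ℂ)) v Z
  rw [hcast, h6, hZY] at e1
  exact (mul_eq_zero.1 e1).resolve_left (pow_ne_zero _ hSC)

/-- relations with powers of `2 π i` as coefficients: all multipliers -/
theorem good_full {k h : ℕ} {S : ℕ} (hS : 0 < S)
    {xq : XB n q → ℚ} {Lc : Set (XB n q → ℂ)} {A T : ℝ}
    (h1 : ∀ j, Y120.HtLe ℚ T (xq j)) (h2 : (fun j => (algebraMap ℚ ℂ) (xq j)) ∈ Lc) (hL : Lc ⊆ (bfF n w hw).U)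
    (h3 : xq ∉ ExcT k (fX n w hw) (TorX n w hw) Lc ℚ (algebraMap ℚ ℂ) (fun a : Fin h => tpi ^ (a : ℕ)) A T)
    (c : (EX n → Fin (k + 1)) → Fin h → ℤ) (hc : ∀ l a, (S : ℝ) ^ (2 * exLT (EX n) k) * |(c l a : ℝ)| ≤ T ^ A)
    (h4 : arT (fun l a => (c l a : ℂ)) (fun a : Fin h => tpi ^ (a : ℕ))
      (PX n (scp n S (Lm w fun j => (algebraMap ℚ ℂ) (xq j)))
      (fun i => er (pj (scp n S (Lm w fun j => (algebraMap ℚ ℂ) (xq j))) i))) = 0) :
    ∀ p ∈ TorY n, arT (fun l a => (c l a : ℂ)) (fun a : Fin h => p.2 ^ (a : ℕ)) p.1 = 0 := by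
  classical
  obtain ⟨-, h5⟩ := good_arr hS h1 h2 hL h3 c hc h4
  have hS0 : (0 : ℝ) < (S : ℝ) := by exact_mod_cast hS
  have hSC : ((S : ℝ) : ℂ) ≠ 0 := by exact_mod_cast hS0.ne'
  have hcast : (fun (l : EX n → Fin (k + 1)) (a : Fin h) => ((S : ℝ) : ℂ) ^ exqT (exX n) l * (c l a : ℂ)) =
      fun l a => (algebraMap ℚ ℂ) (zcX S c l a : ℚ) := by
    funext l a
    rw [zcX_map]
    push_cast
    rfl
  rintro ⟨Y, μ⟩ hY
  set Z : EX n → ℂ := fun y => ((S : ℝ) : ℂ) ^ (-(if exX n y then (-1 : ℤ) else 1)) * Y y with hZ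
  have hZY : rsT (exX n) S Z = Y := rsT_inv (exX n) hS0 Y
  rw [← hZY, rsT_tor hS0] at hY
  have h6 := full_free (bfF n w hw) xq (hL h2) (fun l a => (zcX S c l a : ℚ)) (fun Y hY => h5 Y hY) hY.1
    (fun s => Z (Sum.inl s)) (fun i => by
      have e1 := hY.2 i
      show bl (fun s => Z (Sum.inl s)) i * ((bfF n w hw).Q i).map (MvPolynomial.aeval (fun j => (algebraMap ℚ ℂ) (xq j))) *
        (bl (fun s => Z (Sum.inl s)) i).transpose = μ ^ 1 • (bm ℚ (mi n i)).map (algebraMap ℚ ℂ)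
      rw [Q_eval, pow_one]
      exact e1) (fun s => Z (Sum.inr s))
  have h7 : Sum.elim (fun s => Z (Sum.inl s)) (fun s => Z (Sum.inr s)) = Z := Sum.elim_comp_inl_inr Z
  rw [h7] at h6
  have e1 := arT_scale (exX n) hS0 (fun l a => (c l a : ℂ)) (fun a : Fin h => μ ^ (a : ℕ)) Z
  rw [hcast, h6, hZY] at e1
  exact (mul_eq_zero.1 e1).resolve_left (pow_ne_zero _ hSC)

end Pool.Agent.N121.OC
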