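import Pool.Agent.N121.OC.Tor
import Pool.Agent.N121.BF.Arr
import Pool.Agent.N121.OH.Pol

/-!
# Arrays and polynomials with free coordinates
-/

set_option autoImplicit false
set_option linter.unusedSectionVars false

open Complex Set Filter Topology NumberField Matrix

namespace Pool.Agent.N121.OC

open Pool.Agent.Y118.HP (jm SpS jm_det aeval_int_map)
open Pool.Agent.Y890.MV
open Pool.Agent.Y890.SM
open Pool.Agent.N121.OH (ptS TorS fsl sum_support descent)

section arrays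

variable {τ σ φ : Type} [Fintype τ] [DecidableEq τ] [Fintype σ] [DecidableEq σ] [Fintype φ] [DecidableEq φ]

/-- the value of an array -/
noncomputable def va1 {k : ℕ} (d : (τ → Fin (k + 1)) → ℂ) (Y : τ → ℂ) : ℂ :=
  ∑ l : τ → Fin (k + 1), d l * ∏ y, Y y ^ (l y : ℕ)

theorem va1_split {k : ℕ} (d : (σ ⊕ φ → Fin (k + 1)) → ℂ) (Y : σ → ℂ) (z : φ → ℂ) :
    va1 d (Sum.elim Y z) = va1 (fun l' : σ → Fin (k + 1) =>
      ∑ l'' : φ → Fin (k + 1), d (Sum.elim l' l'') * ∏ s, z s ^ (l'' s : ℕ)) Y := by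
  unfold va1
  rw [← Equiv.sum_comp (Equiv.sumArrowEquivProdArrow σ φ (Fin (k + 1))).symm, Fintype.sum_prod_type]
  refine Finset.sum_congr rfl fun l' _ => ?_
  rw [Finset.sum_mul]
  refine Finset.sum_congr rfl fun l'' _ => ?_
  have h1 : (Equiv.sumArrowEquivProdArrow σ φ (Fin (k + 1))).symm (l', l'') = Sum.elim l' l'' := rfl
  rw [h1, Fintype.prod_sum_type]
  simp only [Sum.elim_inl, Sum.elim_inr]
  ring

theorem va1_split' {k : ℕ} (d : (σ ⊕ φ → Fin (k + 1)) → ℂ) (Y : σ → ℂ) (z : φ → ℂ) :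
    va1 d (Sum.elim Y z) = va1 (fun l'' : φ → Fin (k + 1) =>
      ∑ l' : σ → Fin (k + 1), d (Sum.elim l' l'') * ∏ s, Y s ^ (l' s : ℕ)) z := by
  rw [va1_split]
  unfold va1
  simp only [Finset.sum_mul]
  rw [Finset.sum_comm]
  refine Finset.sum_congr rfl fun l'' _ => Finset.sum_congr rfl fun l' _ => ?_
  ring

theorem infinite_rat : (Set.range fun r : ℚ => (algebraMap ℚ ℂ) r).Infinite :=
  Set.infinite_range_of_injective (algebraMap ℚ ℂ).injective

theorem infinite_int : (Set.range fun r : ℤ => (r : ℂ)).Infinite :=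
  Set.infinite_range_of_injective Int.cast_injective

/-- an array which vanishes at all rational points vanishes -/
theorem va1_rat {k : ℕ} (d : (φ → Fin (k + 1)) → ℂ) (h : ∀ z : φ → ℚ, va1 d (fun s => (algebraMap ℚ ℂ) (z s)) = 0)
    (z : φ → ℂ) : va1 d z = 0 := by
  set P : MvPolynomial φ ℂ := ∑ l : φ → Fin (k + 1), MvPolynomial.C (d l) * ∏ y, MvPolynomial.X y ^ (l y : ℕ) with hP
  have h1 : ∀ z : φ → ℂ, MvPolynomial.eval z P = va1 d z := by
    intro z
    rw [hP]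
    unfold va1
    simp [map_sum, map_mul, map_prod]
  have h2 : P = 0 := by
    refine MvPolynomial.funext_set (fun _ => Set.range fun r : ℚ => (algebraMap ℚ ℂ) r) (fun _ => infinite_rat) ?_
    intro x hx
    rw [map_zero]
    choose r hr using fun s => hx s (Set.mem_univ s)
    have h3 : x = fun s => (algebraMap ℚ ℂ) (r s) := by
      funext s
      exact (hr s).symm
    rw [h3, h1]
    exact h r
  rw [← h1, h2, map_zero]

/-- the value of an array with constants -/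
noncomputable def arT {k : ℕ} {h : Type} [Fintype h] (c : (τ → Fin (k + 1)) → h → ℂ) (v : h → ℂ) (Y : τ → ℂ) : ℂ :=
  ∑ l : τ → Fin (k + 1), (∑ a, v a * c l a) * ∏ y, Y y ^ (l y : ℕ)

theorem arT_va {k : ℕ} {h : Type} [Fintype h] (c : (τ → Fin (k + 1)) → h → ℂ) (v : h → ℂ) (Y : τ → ℂ) :
    arT c v Y = va1 (fun l => ∑ a, v a * c l a) Y := rfl

/-- rescaling -/
noncomputable def rsT (ex : τ → Bool) (s : ℝ) (Y : τ → ℂ) (y : τ) : ℂ := (s : ℂ) ^ (if ex y then (-1 : ℤ) else 1) * Y y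

/-- the exponents of the side -/
def exqT {k : ℕ} (ex : τ → Bool) (l : τ → Fin (k + 1)) : ℕ := ∑ y, (if ex y then k - (l y : ℕ) else k + (l y : ℕ))

/-- the total exponent -/
def exLT (τ : Type) [Fintype τ] (k : ℕ) : ℕ := ∑ _y : τ, k

theorem exqT_le {k : ℕ} (ex : τ → Bool) (l : τ → Fin (k + 1)) : exqT ex l ≤ 2 * exLT τ k := by
  unfold exqT exLT
  rw [Finset.mul_sum]
  refine Finset.sum_le_sum fun y _ => ?_
  have h1 : (l y : ℕ) ≤ k := Nat.lt_succ_iff.1 (l y).2
  split_ifs <;> omega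

theorem exqT_eq {k : ℕ} (ex : τ → Bool) {s : ℝ} (hs : 0 < s) (Y : τ → ℂ) (l : τ → Fin (k + 1)) :
    (s : ℂ) ^ exLT τ k * ∏ y, (rsT ex s Y y) ^ (l y : ℕ) = (s : ℂ) ^ exqT ex l * ∏ y, (Y y) ^ (l y : ℕ) := by
  have hs0 : (s : ℂ) ≠ 0 := by exact_mod_cast hs.ne'
  unfold exLT exqT
  rw [← Finset.prod_pow_eq_pow_sum, ← Finset.prod_pow_eq_pow_sum, ← Finset.prod_mul_distrib,
    ← Finset.prod_mul_distrib]
  refine Finset.prod_congr rfl fun y _ => ?_
  unfold rsT
  rw [mul_pow, ← mul_assoc]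
  congr 1
  have h1 : (l y : ℕ) ≤ k := Nat.lt_succ_iff.1 (l y).2
  obtain ⟨d, hd⟩ := Nat.exists_eq_add_of_le h1
  have h2 : k - (l y : ℕ) = d := by omega
  have h5 : (s : ℂ) ^ k = s ^ (l y : ℕ) * s ^ d := by rw [← pow_add, ← hd]
  split_ifs with h3
  · rw [h2, _root_.zpow_neg_one, h5, inv_pow]
    field_simp
  · rw [zpow_one, ← pow_add]

theorem arT_scale {k : ℕ} {h : Type} [Fintype h] (ex : τ → Bool) {s : ℝ} (hs : 0 < s)
    (c : (τ → Fin (k + 1)) → h → ℂ) (v : h → ℂ) (Y : τ → ℂ) :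
    (s : ℂ) ^ exLT τ k * arT c v (rsT ex s Y) = arT (fun l a => (s : ℂ) ^ exqT ex l * c l a) v Y := by
  unfold arT
  rw [Finset.mul_sum]
  refine Finset.sum_congr rfl fun l _ => ?_
  have h1 := exqT_eq ex hs Y l
  have h2 : (∑ a, v a * ((s : ℂ) ^ exqT ex l * c l a)) = (s : ℂ) ^ exqT ex l * ∑ a, v a * c l a := by
    rw [Finset.mul_sum]
    refine Finset.sum_congr rfl fun a _ => ?_
    ring
  rw [h2]
  linear_combination (∑ a, v a * c l a) * h1

theorem rsT_inv (ex : τ → Bool) {s : ℝ} (hs : 0 < s) (Y : τ → ℂ) :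
    rsT ex s (fun y => (s : ℂ) ^ (-(if ex y then (-1 : ℤ) else 1)) * Y y) = Y := by
  have hs0 : (s : ℂ) ≠ 0 := by exact_mod_cast hs.ne'
  funext y
  unfold rsT
  rw [← mul_assoc, ← zpow_add₀ hs0, add_neg_cancel, zpow_zero, one_mul]

/-- the array of a polynomial -/
theorem arT_rel {k : ℕ} (P : Fin k → MvPolynomial τ ℤ) (hd : ∀ a, (P a).totalDegree ≤ k) (ξ : Fin k → ℂ) (Y : τ → ℂ) :
    ∑ a, ξ a * MvPolynomial.aeval Y (P a) = arT (k := k) (fun l a => (((P a).coeff (fsl l) : ℤ) : ℂ)) ξ Y := by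
  unfold arT
  have h1 : ∀ a, MvPolynomial.aeval Y (P a) =
      ∑ l : τ → Fin (k + 1), (((P a).coeff (fsl l) : ℤ) : ℂ) * ∏ y, (Y y) ^ (l y : ℕ) := by
    intro a
    rw [MvPolynomial.aeval_def, MvPolynomial.eval₂_eq']
    have h2 := sum_support (hd a) (fun s r => (r : ℂ) * ∏ y, (Y y) ^ (s y)) (fun s => by simp)
    simp only [algebraMap_int_eq, eq_intCast]
    exact h2
  simp only [h1, Finset.mul_sum, Finset.sum_mul]
  rw [Finset.sum_comm]
  refine Finset.sum_congr rfl fun l _ => Finset.sum_congr rfl fun a _ => ?_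
  ring

/-- the point with the coordinates `Y` and `μ` -/
def opt {R : Type*} (Y : τ → R) (μ : R) : Option τ → R := fun o => o.elim μ Y

/-- the exponents with a power of the multiplier -/
noncomputable def oslT {d : ℕ} (l : τ → Fin (d + 1)) (a : Fin (d + 1)) : Option τ →₀ ℕ :=
  fsl (fun o : Option τ => o.elim a l)

theorem arT_abs {d : ℕ} (M : MvPolynomial (Option τ) ℤ) (hd : M.totalDegree ≤ d) (Y : τ → ℂ) (μ : ℂ) :
    MvPolynomial.aeval (opt Y μ) M =
      arT (k := d) (fun l (a : Fin (d + 1)) => ((M.coeff (oslT l a) : ℤ) : ℂ)) (fun a => μ ^ (a : ℕ)) Y := by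
  unfold arT
  rw [MvPolynomial.aeval_def, MvPolynomial.eval₂_eq']
  have h2 := sum_support hd (fun s r => (r : ℂ) * ∏ o : Option τ, (opt Y μ o) ^ (s o)) (fun s => by simp)
  simp only [algebraMap_int_eq, eq_intCast]
  refine h2.trans ?_
  set E : (Option τ → Fin (d + 1)) ≃ (τ → Fin (d + 1)) × Fin (d + 1) :=
    { toFun := fun f => (fun y => f (some y), f none)
      invFun := fun p o => o.elim p.2 p.1
      left_inv := fun f => by
        funext o
        cases o <;> rfl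
      right_inv := fun p => rfl } with hE
  rw [← Equiv.sum_comp E.symm, Fintype.sum_prod_type]
  refine Finset.sum_congr rfl fun l _ => ?_
  rw [Finset.sum_mul]
  refine Finset.sum_congr rfl fun a _ => ?_
  have h3 : E.symm (l, a) = fun o : Option τ => o.elim a l := rfl
  rw [h3, Fintype.prod_option]
  show ((M.coeff (oslT l a) : ℤ) : ℂ) * (μ ^ (a : ℕ) * ∏ y, (Y y) ^ (l y : ℕ)) = _
  ring

end arrays

section full

variable {ι X : Type} [Fintype X] {n : ι → ℕ} [Fintype ι] [DecidableEq ι] {φ : Type} [Fintype φ] [DecidableEq φ]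

/-- **From the torsor with multiplier `2 π i` to the full torsor**, with free coordinates -/
theorem full_free (F : SympFam X n) (e : X → ℚ) (he : (fun j => (algebraMap ℚ ℂ) (e j)) ∈ F.U) {δ h : ℕ}
    (c : (Ix n ⊕ φ → Fin (δ + 1)) → Fin h → ℚ)
    (H : ∀ Y : Ix n ⊕ φ → ℂ, (fun s => Y (Sum.inl s)) ∈ F.Tor (fun j => (algebraMap ℚ ℂ) (e j)) →
      arT (fun l a => (algebraMap ℚ ℂ) (c l a)) (fun a : Fin h => tpi ^ (a : ℕ)) Y = 0)
    {μ : ℂ} (hμ : μ ≠ 0) (Y : Ix n → ℂ)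
    (hY : ∀ i, bl Y i * F.Qx (fun j => (algebraMap ℚ ℂ) (e j)) i * (bl Y i).transpose = μ ^ F.w i • F.Jx i)
    (z : φ → ℂ) :
    arT (fun l a => (algebraMap ℚ ℂ) (c l a)) (fun a : Fin h => μ ^ (a : ℕ)) (Sum.elim Y z) = 0 := by
  classical
  rw [arT_va, va1_split']
  refine va1_rat _ (fun z => ?_) z
  rw [← va1_split' (fun l => ∑ a : Fin h, μ ^ (a : ℕ) * (algebraMap ℚ ℂ) (c l a)), va1_split]
  -- the specialised array
  set c' : (Ix n → Fin (δ + 1)) → Fin h → ℚ := fun l' a =>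
    ∑ l'' : φ → Fin (δ + 1), c (Sum.elim l' l'') a * ∏ s, z s ^ (l'' s : ℕ) with hc'
  have hval : ∀ (ν : ℂ) (Y : Ix n → ℂ), va1 (fun l' : Ix n → Fin (δ + 1) => ∑ l'' : φ → Fin (δ + 1),
      (∑ a : Fin h, ν ^ (a : ℕ) * (algebraMap ℚ ℂ) (c (Sum.elim l' l'') a)) *
        ∏ s, ((algebraMap ℚ ℂ) (z s)) ^ (l'' s : ℕ)) Y =
      ∑ l, (∑ a : Fin h, ν ^ (a : ℕ) * (algebraMap ℚ ℂ) (c' l a)) * ∏ y, Y y ^ (l y : ℕ) := by
    intro ν Y
    unfold va1
    refine Finset.sum_congr rfl fun l' _ => ?_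
    congr 1
    simp only [hc', map_sum, map_mul, map_prod, map_pow, Finset.mul_sum, Finset.sum_mul]
    rw [Finset.sum_comm]
    refine Finset.sum_congr rfl fun a _ => Finset.sum_congr rfl fun l'' _ => ?_
    ring
  rw [hval]
  refine F.full (algebraMap ℚ ℂ) e he c' (fun Y' hY' => ?_) hμ Y hY
  rw [← hval]
  have h1 := H (Sum.elim Y' (fun s => (algebraMap ℚ ℂ) (z s))) hY'
  rw [arT_va, va1_split] at h1
  exact h1

end full

section desc

variable {ι : Type} {n : ι → ℕ} [Fintype ι] [DecidableEq ι] {φ : Type} [Fintype φ] [DecidableEq φ]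

/-- specialisation of the free coordinates -/
noncomputable def spo {R : Type} [CommRing R] (z : φ → ℤ) :
    MvPolynomial (Option (Ix n ⊕ φ)) R →+* MvPolynomial (Option (Ix n)) R :=
  MvPolynomial.eval₂Hom MvPolynomial.C fun o => o.elim (MvPolynomial.X none)
    (Sum.elim (fun q => MvPolynomial.X (some q)) (fun s => MvPolynomial.C ((z s : ℤ) : R)))

theorem spo_map {R S : Type} [CommRing R] [CommRing S] (χ : R →+* S) (z : φ → ℤ)
    (P : MvPolynomial (Option (Ix n ⊕ φ)) R) :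
    MvPolynomial.map χ (spo z P) = spo z (MvPolynomial.map χ P) := by
  have h1 : (MvPolynomial.map χ).comp (spo (n := n) z) = (spo z).comp (MvPolynomial.map χ) := by
    refine MvPolynomial.ringHom_ext (fun b => ?_) (fun o => ?_)
    · simp [spo]
    · rcases o with _ | (q | q)
      · simp [spo]
      · simp [spo]
      · simp [spo]
  exact congrArg (fun g => g P) h1

theorem spo_ev (z : φ → ℤ) (Y : Ix n → ℂ) (μ : ℂ) (P : MvPolynomial (Option (Ix n ⊕ φ)) ℂ) :
    MvPolynomial.eval (opt Y μ) (spo z P) = MvPolynomial.eval (opt (Sum.elim Y fun s => ((z s : ℤ) : ℂ)) μ) P := by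
  have h1 : (MvPolynomial.eval (opt Y μ)).comp (spo z) =
      MvPolynomial.eval (opt (Sum.elim Y fun s => ((z s : ℤ) : ℂ)) μ) := by
    refine MvPolynomial.ringHom_ext (fun b => ?_) (fun o => ?_)
    · simp [spo]
    · rcases o with _ | (q | q)
      · simp [spo, opt]
      · simp [spo, opt]
      · simp [spo, opt]
  exact congrArg (fun g => g P) h1

/-- a polynomial which vanishes at all integral values of the free coordinates -/
theorem van_int (P : MvPolynomial (Option (Ix n ⊕ φ)) ℂ) (Y : Ix n → ℂ) (μ : ℂ)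
    (h : ∀ z : φ → ℤ, MvPolynomial.eval (opt (Sum.elim Y fun s => ((z s : ℤ) : ℂ)) μ) P = 0) (z : φ → ℂ) :
    MvPolynomial.eval (opt (Sum.elim Y z) μ) P = 0 := by
  set G : MvPolynomial (Option (Ix n ⊕ φ)) ℂ →+* MvPolynomial φ ℂ :=
    MvPolynomial.eval₂Hom MvPolynomial.C fun o => o.elim (MvPolynomial.C μ)
      (Sum.elim (fun q => MvPolynomial.C (Y q)) (fun s => MvPolynomial.X s)) with hG
  have h1 : ∀ z : φ → ℂ, MvPolynomial.eval z (G P) = MvPolynomial.eval (opt (Sum.elim Y z) μ) P := by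
    intro z
    have h2 : (MvPolynomial.eval z).comp G = MvPolynomial.eval (opt (Sum.elim Y z) μ) := by
      refine MvPolynomial.ringHom_ext (fun b => ?_) (fun o => ?_)
      · simp [hG]
      · rcases o with _ | (q | q)
        · simp [hG, opt]
        · simp [hG, opt]
        · simp [hG, opt]
    exact congrArg (fun g => g P) h2
  have h2 : G P = 0 := by
    refine MvPolynomial.funext_set (fun _ => Set.range fun r : ℤ => (r : ℂ)) (fun _ => infinite_int) ?_
    intro x hx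
    rw [map_zero]
    choose r hr using fun s => hx s (Set.mem_univ s)
    have h3 : x = fun s => ((r s : ℤ) : ℂ) := by
      funext s
      exact (hr s).symm
    rw [h3, h1]
    exact h r
  rw [← h1, h2, map_zero]

/-- **Descent** with free coordinates -/
theorem descent_free (hn : ∀ i, Even (n i)) {K : Type} [Field K] [NumberField K]
    (P : MvPolynomial (Option (Ix n ⊕ φ)) (𝓞 K)) (χ : K →+* ℂ) {X0 : ∀ i, Matrix (Fin (n i)) (Fin (n i)) ℚ}
    {Q : ∀ i, Matrix (Fin (n i)) (Fin (n i)) ℂ}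
    (hX0 : ∀ i, (X0 i).map (algebraMap ℚ ℂ) * Q i * ((X0 i).map (algebraMap ℚ ℂ)).transpose = jm ℂ (n i))
    (hM : ∀ (x : (∀ i, Matrix (Fin (n i)) (Fin (n i)) ℂ) × ℂ) (z : φ → ℂ), x ∈ TorS Q →
      MvPolynomial.eval (opt (Sum.elim (fun q : Ix n => x.1 q.1 q.2.1 q.2.2) z) x.2)
      (∏ ψ : K →+* ℂ, P.map (ψ.comp (algebraMap (𝓞 K) K))) = 0) :
    ∀ (x : (∀ i, Matrix (Fin (n i)) (Fin (n i)) ℂ) × ℂ) (z : φ → ℂ), x ∈ TorS Q →
      MvPolynomial.eval (opt (Sum.elim (fun q : Ix n => x.1 q.1 q.2.1 q.2.2) z) x.2)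
      (P.map (χ.comp (algebraMap (𝓞 K) K))) = 0 := by
  intro x z hx
  refine van_int _ _ _ (fun z => ?_) z
  rw [← spo_ev, ← spo_map]
  have h1 := descent hn (spo z P) χ hX0 (fun y hy => by
    have h2 := hM y (fun s => ((z s : ℤ) : ℂ)) hy
    have h3 : (∏ ψ : K →+* ℂ, MvPolynomial.map (ψ.comp (algebraMap (𝓞 K) K)) (spo (n := n) z P)) =
        spo z (∏ ψ : K →+* ℂ, P.map (ψ.comp (algebraMap (𝓞 K) K))) := by
      rw [map_prod]
      refine Finset.prod_congr rfl fun ψ _ => ?_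
      rw [spo_map]
    rw [h3, MvPolynomial.aeval_eq_eval]
    have h4 : ptS y.1 y.2 = opt (fun q : Ix n => y.1 q.1 q.2.1 q.2.2) y.2 := rfl
    rw [h4]
    show MvPolynomial.eval _ _ = 0
    rw [spo_ev]
    exact h2) x hx
  rw [MvPolynomial.aeval_eq_eval] at h1
  exact h1

end desc

end Pool.Agent.N121.OC
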