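import Pool.Agent.N121.OC.Nu
import Pool.Agent.N121.AH.Prod

/-!
# The periods of the third kind are independent of the periods of the first and second kind: one curve
-/

set_option autoImplicit false
set_option linter.unusedSectionVars false

open Filter Matrix Topology

namespace Pool.Agent.N121.OC

open Pool.Agent.Y118.HP (jm jm_apply SpS jm_det jm_transpose jm_map qm dl dl_ne bm bm_eq perC TV jm_mulVec ext0)
open Pool.Agent.Y890.MV
open Pool.Agent.Y890.HE
open Pool.Agent.Y890.SM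
open Pool.Agent.N121.OH
open Pool.Agent.N121.AH

variable {n : ℕ}

/-- the indices of the periods of an affine curve -/
abbrev EI (n : ℕ) : Type := (Fin (mm n) × Fin (mm n)) ⊕ (Fin (n % 2) × Fin (mm n))

/-- the index of the form of the third kind -/
def gx (u : Fin (n % 2)) : Fin n := ⟨n / 2, by have := u.2; omega⟩

theorem odd_of (u : Fin (n % 2)) : Odd n := by
  have := u.2
  exact Nat.odd_iff.2 (by omega)

/-- the periods of the form of the third kind -/
noncomputable def fT (a : Fin (n + 2) → ℂ) (q : Fin (n % 2) × Fin (mm n)) : ℂ := PG a (cst q.2) (gx q.1)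

/-- the periods of the affine curve -/
noncomputable def fE (a : Fin (n + 2) → ℂ) : EI n → ℂ := Sum.elim (fun q => PA a q.1 q.2) (fT a)

section roots

/-- the matrices which preserve the relations -/
def InvR (M : Matrix (Fin n) (Fin n) ℂ) : Prop :=
  ∀ p : MvPolynomial (Fin n × Fin n) (MvPolynomial (Fin (n + 1)) ℂ),
    (∀ e ∈ Ord n, evX e (fun q => FM e q.1 q.2) p = 0) → ∀ e ∈ Ord n, evX e (fun q => (M * FM e) q.1 q.2) p = 0

theorem invR_TV (v : Fin n → ℂ) (s : ℂ) : InvR (TV v s) := fun p hp => inv_TV p hp v s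

/-- substitution `X ↦ g X` -/
noncomputable def sbR (g : Matrix (Fin n) (Fin n) ℂ) :
    MvPolynomial (Fin n × Fin n) (MvPolynomial (Fin (n + 1)) ℂ) →+*
    MvPolynomial (Fin n × Fin n) (MvPolynomial (Fin (n + 1)) ℂ) :=
  MvPolynomial.eval₂Hom MvPolynomial.C (fun q => ∑ k, MvPolynomial.C (MvPolynomial.C (g q.1 k)) *
    MvPolynomial.X (k, q.2))

theorem sbR_ev (g : Matrix (Fin n) (Fin n) ℂ) (e : Fin (n + 1) → ℂ) (Z : Matrix (Fin n) (Fin n) ℂ)
    (p : MvPolynomial (Fin n × Fin n) (MvPolynomial (Fin (n + 1)) ℂ)) :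
    evX e (fun q => Z q.1 q.2) (sbR g p) = evX e (fun q => (g * Z) q.1 q.2) p := by
  have h1 : (MvPolynomial.eval₂Hom (MvPolynomial.eval e) (fun q : Fin n × Fin n => Z q.1 q.2)).comp (sbR g) =
      MvPolynomial.eval₂Hom (MvPolynomial.eval e) (fun q => (g * Z) q.1 q.2) := by
    refine MvPolynomial.ringHom_ext (fun b => ?_) (fun q => ?_)
    · simp [sbR]
    · simp [sbR, Matrix.mul_apply]
  exact congrArg (fun g => g p) h1

theorem invR_mul {g h : Matrix (Fin n) (Fin n) ℂ} (hg : InvR g) (hh : InvR h) : InvR (g * h) := by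
  intro p hp e he
  have h1 : ∀ e ∈ Ord n, evX e (fun q => FM e q.1 q.2) (sbR g p) = 0 := by
    intro e he
    rw [sbR_ev]
    exact hg p hp e he
  have h2 := hh _ h1 e he
  rw [sbR_ev] at h2
  rw [mul_assoc]
  exact h2

theorem dot_nu (hn : Odd n) (v : Fin n → ℂ) : nu ℂ n ⬝ᵥ (jm ℂ n *ᵥ v) = 0 := by
  have h := Pool.Agent.Y118.HP.om_skew v (nu ℂ n)
  unfold Pool.Agent.Y118.HP.om at h
  rw [h, jm_nu hn, dotProduct_zero, neg_zero]

/-- the translations -/
theorem TV_TV (hn : Odd n) (v : Fin n → ℂ) (t : ℂ) :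
    TV (v + t • nu ℂ n) 1 * TV v (-1) = 1 + t • vecMulVec (jm ℂ n *ᵥ v) (nu ℂ n) := by
  have h1 : jm ℂ n *ᵥ (v + t • nu ℂ n) = jm ℂ n *ᵥ v := by
    rw [Matrix.mulVec_add, Matrix.mulVec_smul, jm_nu hn, smul_zero, add_zero]
  have h2 : (v + t • nu ℂ n) ⬝ᵥ (jm ℂ n *ᵥ v) = 0 := by
    rw [add_dotProduct, smul_dotProduct, dot_nu hn, smul_zero, add_zero]
    exact Pool.Agent.Y118.HP.om_self v
  unfold TV
  rw [h1, one_smul, Matrix.add_mul, Matrix.one_mul, Matrix.mul_add, Matrix.mul_one, Matrix.mul_smul,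
    Matrix.vecMulVec_mul_vecMulVec, h2, zero_smul]
  ext r s
  simp only [Matrix.add_apply, Matrix.smul_apply, vecMulVec_apply, Pi.add_apply, Pi.smul_apply, smul_eq_mul]
  simp
  ring

/-- relations are invariant under the translations -/
theorem inv_tr (hn : Odd n) (p : MvPolynomial (Fin n × Fin n) (MvPolynomial (Fin (n + 1)) ℂ))
    (hp : ∀ e ∈ Ord n, evX e (fun q => FM e q.1 q.2) p = 0) (v : Fin n → ℂ) (t : ℂ) :
    ∀ e ∈ Ord n, evX e (fun q => (FM e + t • vecMulVec (jm ℂ n *ᵥ v) (rho e)) q.1 q.2) p = 0 := by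
  intro e he
  have h1 := invR_mul (invR_TV (v + t • nu ℂ n) 1) (invR_TV v (-1)) p hp e he
  rw [TV_TV hn, Matrix.add_mul, Matrix.one_mul, Matrix.smul_mul, Matrix.vecMulVec_mul] at h1
  exact h1

end roots

section kernel

/-- the forms of the second kind have no residue at infinity -/
theorem ker_cf {F : Polynomial ℂ} (hF : ∀ m, n + 1 < m → F.coeff m = 0) {P J : Matrix (Fin n) (Fin n) ℂ}
    (h0 : P * qm n F * P.transpose = J) (hJ : nu ℂ n ᵥ* J = 0) (hd : (J.submatrix (cst (n := n)) cst).det ≠ 0) :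
    (nu ℂ n ᵥ* P) ᵥ* cf n F = 0 := by
  rw [← cf_q0 F hF] at h0
  set X : Matrix (Fin (mm n)) (Fin n) ℂ := P.submatrix cst id with hX
  set Y : Matrix (Fin (mm n)) (Fin (mm n)) ℂ := X * cf n F with hY
  have h1 : Y * (q0 ℂ n * Y.transpose) = J.submatrix cst cst := by
    have h2 : Y * (q0 ℂ n * Y.transpose) = X * (cf n F * q0 ℂ n * (cf n F).transpose) * X.transpose := by
      rw [hY, Matrix.transpose_mul]
      simp only [Matrix.mul_assoc]
    rw [h2, ← h0]
    ext r s
    simp only [hX, Matrix.mul_apply, Matrix.submatrix_apply, Matrix.transpose_apply, id]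
  have hdet : (q0 ℂ n * Y.transpose).det ≠ 0 := by
    intro h2
    have h3 := congrArg Matrix.det h1
    rw [Matrix.det_mul, h2, mul_zero] at h3
    exact hd h3.symm
  refine Matrix.eq_zero_of_vecMul_eq_zero hdet ?_
  have h4 : nu ℂ n ᵥ* (P * (cf n F * q0 ℂ n * (cf n F).transpose) * P.transpose) = 0 := by
    rw [h0, hJ]
  have h6 : ((nu ℂ n ᵥ* P) ᵥ* cf n F) ᵥ* (q0 ℂ n * Y.transpose) =
      fun s => (nu ℂ n ᵥ* (P * (cf n F * q0 ℂ n * (cf n F).transpose) * P.transpose)) (cst s) := by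
    rw [hY, Matrix.transpose_mul, Matrix.vecMul_vecMul, Matrix.vecMul_vecMul]
    have h7 : P * (cf n F * (q0 ℂ n * ((cf n F).transpose * X.transpose))) =
        (P * (cf n F * q0 ℂ n * (cf n F).transpose)) * X.transpose := by
      simp only [Matrix.mul_assoc]
    rw [h7]
    funext s
    have h8 : ∀ v : Fin n → ℂ, (v ᵥ* X.transpose) s = (v ᵥ* P.transpose) (cst s) := fun v => rfl
    rw [← Matrix.vecMul_vecMul _ _ X.transpose, h8, Matrix.vecMul_vecMul]
  rw [h6, h4]
  rfl

theorem nu_dl (i : Fin n) : nu ℂ n i * dl i = 2 * nu ℂ n i := by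
  unfold nu dl
  split_ifs with h
  · rw [pow_zero, mul_one, mul_comm]
  · rw [zero_mul, mul_zero]

/-- the factors of the columns -/
noncomputable def wk (n : ℕ) (k : Fin n) : ℂ := w0 ^ (2 * (k : ℤ) + 1 - n)

theorem nu_PG {c : ℂ} (hc : c / u0 ∈ Complex.slitPlane) {e : Fin (n + 1) → ℂ} (he : e ∈ Ord n) (k : Fin n) :
    (nu ℂ n ᵥ* PG (va c e)) k = (scf n c)⁻¹ * (2 * (wk n k * rho e k)) := by
  have hc0 : c ≠ 0 := by
    rintro rfl
    exact Complex.slitPlane_ne_zero hc (zero_div _)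
  unfold PG rho
  rw [va_last, va_rt hc0 he, Matrix.vecMul, dotProduct, Finset.mul_sum, Finset.mul_sum, Finset.mul_sum]
  refine Finset.sum_congr rfl fun i _ => ?_
  rw [Matrix.smul_apply, smul_eq_mul]
  unfold PE wk
  rw [Matrix.of_apply]
  have h1 := nu_dl (n := n) i
  have h2 : FM e i k = perC e i k := rfl
  rw [h2]
  linear_combination ((scf n c)⁻¹ * w0 ^ (2 * (k : ℤ) + 1 - n) * perC e i k) * h1

theorem rho_va (hn : Odd n) {c : ℂ} (hc : c / u0 ∈ Complex.slitPlane) {e : Fin (n + 1) → ℂ} (he : e ∈ Ord n)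
    (i : Fin (mm n)) : ∑ k : Fin n, wk n k * rho e k * cf n (fp (va c e)) k i = 0 := by
  have hc0 : c ≠ 0 := by
    rintro rfl
    exact Complex.slitPlane_ne_zero hc (zero_div _)
  have h0 := PG_riemann (va_mem hc he)
  have h1 := ker_cf (fun m hm => fp_big (va c e) hm) h0 (by
    rw [bm_eq, Matrix.vecMul_smul, Matrix.vecMul_smul]
    have h5 : nu ℂ n ᵥ* jm ℂ n = 0 := by
      rw [← Matrix.mulVec_transpose, jm_transpose, Matrix.neg_mulVec, jm_nu hn, neg_zero]
    rw [h5, smul_zero, smul_zero]) (by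
    have h5 : (tpi • (bm ℚ n).map (algebraMap ℚ ℂ)).submatrix (cst (n := n)) cst = (tpi * (-2 : ℂ)) • jm ℂ (mm n) := by
      rw [bm_eq, smul_smul]
      ext r s
      rfl
    rw [h5, Matrix.det_smul]
    exact mul_ne_zero (pow_ne_zero _ (mul_ne_zero tpi_ne (by norm_num))) (jm_det (mm_even n)))
  have h2 : ∑ k : Fin n, (nu ℂ n ᵥ* PG (va c e)) k * cf n (fp (va c e)) k i = 0 := congrFun h1 i
  simp only [nu_PG hc he] at h2
  have h3 := scf_ne (n := n) hc0
  have h4 : (scf n c)⁻¹ * 2 * ∑ k : Fin n, wk n k * rho e k * cf n (fp (va c e)) k i = 0 := by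
    rw [Finset.mul_sum, ← h2]
    refine Finset.sum_congr rfl fun k _ => ?_
    ring
  exact (mul_eq_zero.1 h4).resolve_left (mul_ne_zero (inv_ne_zero h3) (by norm_num))

end kernel

section transfer

/-- the transfer of relations to the roots -/
noncomputable def trB (c s : ℂ) : MvPolynomial (EI n) (MvPolynomial (Fin (n + 2)) ℂ) →+*
    MvPolynomial (Fin n × Fin n) (MvPolynomial (Fin (n + 1)) ℂ) :=
  MvPolynomial.eval₂Hom (MvPolynomial.C.comp (MvPolynomial.eval₂Hom MvPolynomial.C fun k : Fin (n + 2) => vaP c k))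
    (Sum.elim (fun q => ∑ k : Fin n, MvPolynomial.C (MvPolynomial.C (s⁻¹ * (dl (cst q.1) * w0 ^ (2 * (k : ℤ) + 1 - n))) *
      cfP c k q.2) * MvPolynomial.X (cst q.1, k))
      (fun q => MvPolynomial.C (MvPolynomial.C (s⁻¹ * (dl (cst q.2) * wk n (gx q.1)))) *
        MvPolynomial.X (cst q.2, gx q.1)))

/-- the values of the last column -/
noncomputable def MU (s : ℂ) (Z : Matrix (Fin n) (Fin n) ℂ) (q : Fin (n % 2) × Fin (mm n)) : ℂ :=
  s⁻¹ * (dl (cst q.2) * wk n (gx q.1)) * Z (cst q.2) (gx q.1)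

theorem trB_ev (c s : ℂ) (e : Fin (n + 1) → ℂ) (Z : Matrix (Fin n) (Fin n) ℂ)
    (p : MvPolynomial (EI n) (MvPolynomial (Fin (n + 2)) ℂ)) :
    evX e (fun q => Z q.1 q.2) (trB c s p) =
      evX (va c e) (Sum.elim (fun q => MA c s e Z q.1 q.2) (MU s Z)) p := by
  have h1 : (MvPolynomial.eval₂Hom (MvPolynomial.eval e) (fun q : Fin n × Fin n => Z q.1 q.2)).comp (trB c s) =
      MvPolynomial.eval₂Hom (MvPolynomial.eval (va c e)) (Sum.elim (fun q => MA c s e Z q.1 q.2) (MU s Z)) := by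
    refine MvPolynomial.ringHom_ext (fun b => ?_) (fun q => ?_)
    · have h2 : ((MvPolynomial.eval₂Hom (MvPolynomial.eval e) (fun q : Fin n × Fin n => Z q.1 q.2)).comp
          (trB c s)).comp MvPolynomial.C = MvPolynomial.eval (va c e) := by
        refine MvPolynomial.ringHom_ext (fun d => ?_) (fun k => ?_)
        · simp [trB]
        · simp only [RingHom.comp_apply, trB, MvPolynomial.eval₂Hom_C, MvPolynomial.eval₂Hom_X', MvPolynomial.eval_X,
            vaP_eval]
          rfl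
      have h3 := congrArg (fun g => g b) h2
      simp only [RingHom.comp_apply] at h3
      rw [RingHom.comp_apply, h3]
      exact (MvPolynomial.eval₂Hom_C _ _ _).symm
    · rcases q with q | q
      · simp only [RingHom.comp_apply, trB, MvPolynomial.eval₂Hom_X', map_sum, map_mul, MvPolynomial.eval₂Hom_C,
          MvPolynomial.eval_C, AH.cfP_eval, Sum.elim_inl]
        unfold MA
        rw [Matrix.of_apply]
      · simp only [RingHom.comp_apply, trB, MvPolynomial.eval₂Hom_X', map_mul, MvPolynomial.eval₂Hom_C,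
          MvPolynomial.eval_C, Sum.elim_inr]
        rfl
  exact congrArg (fun g => g p) h1

theorem MU_FM {c : ℂ} (hc : c / u0 ∈ Complex.slitPlane) {e : Fin (n + 1) → ℂ} (he : e ∈ Ord n) :
    MU (scf n c) (FM e) = fT (va c e) := by
  have hc0 : c ≠ 0 := by
    rintro rfl
    exact Complex.slitPlane_ne_zero hc (zero_div _)
  funext q
  unfold MU fT PG wk
  rw [va_last, va_rt hc0 he, Matrix.smul_apply, smul_eq_mul]
  unfold PE
  rw [Matrix.of_apply]
  have h2 : FM e (cst q.2) (gx q.1) = perC e (cst q.2) (gx q.1) := rfl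
  rw [h2]
  ring

theorem MA_tr (hn : Odd n) {c : ℂ} (hc : c / u0 ∈ Complex.slitPlane) (s : ℂ) {e : Fin (n + 1) → ℂ} (he : e ∈ Ord n)
    (Z : Matrix (Fin n) (Fin n) ℂ) (t : ℂ) (y : Fin n → ℂ) :
    MA c s e (Z + t • vecMulVec y (rho e)) = MA c s e Z := by
  ext l i
  unfold MA
  rw [Matrix.of_apply, Matrix.of_apply]
  have h1 : ∀ k : Fin n, s⁻¹ * (dl (cst l) * w0 ^ (2 * (k : ℤ) + 1 - n)) * cf n (fp (va c e)) k i *
      (Z + t • vecMulVec y (rho e)) (cst l) k =
      s⁻¹ * (dl (cst l) * w0 ^ (2 * (k : ℤ) + 1 - n)) * cf n (fp (va c e)) k i * Z (cst l) k +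
      (s⁻¹ * dl (cst l : Fin n) * t * y (cst l)) * (wk n k * rho e k * cf n (fp (va c e)) k i) := by
    intro k
    rw [Matrix.add_apply, Matrix.smul_apply, vecMulVec_apply, smul_eq_mul]
    unfold wk
    ring
  simp only [h1]
  rw [Finset.sum_add_distrib, ← Finset.mul_sum, rho_va hn hc he, mul_zero, add_zero]

end transfer

section free

/-- specialisation of the last coordinates -/
noncomputable def spz {σ φ X : Type} (z : φ → ℂ) :
    MvPolynomial (σ ⊕ φ) (MvPolynomial X ℂ) →+* MvPolynomial σ (MvPolynomial X ℂ) :=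
  MvPolynomial.eval₂Hom MvPolynomial.C (Sum.elim MvPolynomial.X fun s => MvPolynomial.C (MvPolynomial.C (z s)))

theorem spz_ev {σ φ X : Type} (z : φ → ℂ) (x : X → ℂ) (Y : σ → ℂ) (p : MvPolynomial (σ ⊕ φ) (MvPolynomial X ℂ)) :
    evX x Y (spz z p) = evX x (Sum.elim Y z) p := by
  have h1 : (MvPolynomial.eval₂Hom (MvPolynomial.eval x) Y).comp (spz z) =
      MvPolynomial.eval₂Hom (MvPolynomial.eval x) (Sum.elim Y z) := by
    refine MvPolynomial.ringHom_ext (fun b => ?_) (fun q => ?_)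
    · simp [spz]
    · rcases q with q | q
      · simp [spz]
      · simp [spz]
  exact congrArg (fun g => g p) h1

/-- **the periods of the third kind are free** -/
theorem free_one (p : MvPolynomial (EI n) (MvPolynomial (Fin (n + 2)) ℂ))
    (hp : ∀ a ∈ U2 n, evX a (fE a) p = 0) (z : Fin (n % 2) × Fin (mm n) → ℂ) :
    ∀ a ∈ U2 n, evX a (Sum.elim (fun q => PA a q.1 q.2) z) p = 0 := by
  rcases Nat.even_or_odd n with hev | hn
  · intro a ha
    have h1 := hp a ha
    have h2 : z = fT a := by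
      funext q
      exact absurd (odd_of q.1) (Nat.not_odd_iff_even.2 hev)
    rw [h2]
    exact h1
  · intro a ha
    set c := a (Fin.last (n + 1)) with hc
    set e0 := rt u0 (bq a) with he0
    have hcs : c / u0 ∈ Complex.slitPlane := ha.1
    have hc0 : c ≠ 0 := lead_ne ha
    have hs0 : scf n c ≠ 0 := scf_ne hc0
    have he0U : e0 ∈ Ord n := rt_mem ha.2
    have hva : va c e0 = a := va_surj ha
    have hlt : n / 2 < n := by
      obtain ⟨g, hg⟩ := hn
      omega
    set g0 : Fin n := ⟨n / 2, hlt⟩ with hg0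
    have hgx : ∀ u : Fin (n % 2), gx u = g0 := fun u => rfl
    have hwk : wk n g0 ≠ 0 := zpow_ne_zero _ w0_ne
    -- relations for the roots
    have h1 : ∀ e ∈ Ord n, evX e (fun q => FM e q.1 q.2) (trB c (scf n c) p) = 0 := by
      intro e he
      rw [trB_ev, MA_FM hcs he, MU_FM hcs he]
      exact hp _ (va_mem hcs he)
    -- the relation at the points where the residue does not vanish
    have h2 : ∀ e ∈ Ord n, rho e g0 ≠ 0 → evX (va c e) (Sum.elim (fun q => PA (va c e) q.1 q.2) z) p = 0 := by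
      intro e he hr
      -- the vector
      have hdet : IsUnit (jm ℂ (mm n)).det := isUnit_iff_ne_zero.2 (jm_det (mm_even n))
      have h0u : 0 < n % 2 := by
        have := Nat.odd_iff.1 hn
        omega
      have huu : ∀ u : Fin (n % 2), u = ⟨0, h0u⟩ := by
        intro u
        have := u.2
        exact Fin.ext (by show (u : ℕ) = 0; omega)
      set y : Fin (mm n) → ℂ := fun l => (z (⟨0, h0u⟩, l) * scf n c / (dl (cst l : Fin n) * wk n g0) -
        FM e (cst l) g0) / rho e g0 with hy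
      set v : Fin (mm n) → ℂ := (jm ℂ (mm n))⁻¹ *ᵥ y with hv
      have h3 : jm ℂ (mm n) *ᵥ v = y := by
        rw [hv, Matrix.mulVec_mulVec, Matrix.mul_nonsing_inv _ hdet, Matrix.one_mulVec]
      have h4 : ∀ l : Fin (mm n), (jm ℂ n *ᵥ ez v) (cst l) = y l := by
        intro l
        rw [← h3, jm_mulVec, jm_mulVec, ext0_ez, ext0_ez]
        rfl
      have h5 := inv_tr hn _ h1 (ez v) 1 e he
      rw [trB_ev, MA_tr hn hcs _ he, MA_FM hcs he] at h5
      have h6 : MU (scf n c) (FM e + (1 : ℂ) • vecMulVec (jm ℂ n *ᵥ ez v) (rho e)) = z := by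
        funext q
        obtain ⟨u, l⟩ := q
        rw [huu u]
        unfold MU
        rw [Matrix.add_apply, Matrix.smul_apply, vecMulVec_apply, h4, one_smul]
        show (scf n c)⁻¹ * (dl (cst l : Fin n) * wk n g0) * (FM e (cst l) g0 + y l * rho e g0) = _
        rw [hy]
        simp only
        have h7 := dl_ne (cst l : Fin n)
        field_simp
        ring
      rw [h6] at h5
      exact h5
    -- all points
    have h3 : ∀ e ∈ Ord n, evX e (fun q => FM e q.1 q.2) (trA c (scf n c) (spz z p)) =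
        evX (va c e) (Sum.elim (fun q => PA (va c e) q.1 q.2) z) p := by
      intro e he
      rw [trA_ev, MA_FM hcs he, spz_ev]
    have h4 := zero_or_zero (U := Ord n) (f := fun e => rho e g0)
      (g := fun e => evX e (fun q => FM e q.1 q.2) (trA c (scf n c) (spz z p))) (rho_an g0) (by
        have h5 : (fun e : Fin (n + 1) → ℂ => evX e (fun q => FM e q.1 q.2) (trA c (scf n c) (spz z p))) =
          fun e => evM (fun q e => FM e q.1 q.2) e (trA c (scf n c) (spz z p)) := rfl
        rw [h5]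
        exact evM_an (fun q => fH_an q) _) (Ord_convex n).isPreconnected (by
        rw [(Ord_open n).nhdsSet_eq, eventually_principal]
        intro e he
        by_cases hr : rho e g0 = 0
        · rw [hr, zero_mul]
        · rw [h3 e he, h2 e he hr, mul_zero])
    rcases h4 with h4 | h4
    · exfalso
      have hm : StrictMono (fun i : Fin (n + 1) => ((i : ℕ) : ℝ)) := fun i k h => by
        show ((i : ℕ) : ℝ) < ((k : ℕ) : ℝ)
        exact_mod_cast h
      exact rho_ne hn hm hlt (h4 _ (Ord_real hm))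
    · have h5 := h4 e0 he0U
      rw [h3 e0 he0U, hva] at h5
      exact h5

end free

end Pool.Agent.N121.OC
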