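import Pool.Agent.N121.AH.Bas

/-!
# The loop around infinity
-/

set_option autoImplicit false
set_option linter.unusedSectionVars false

open Complex Set Filter Topology Matrix MeasureTheory

namespace Pool.Agent.N121.OC

open Pool.Agent.Y118.HP
open Pool.Agent.Y890.MV (evX evM_eq TorM evM_an)
open Pool.Agent.Y890.HE (Ord Ord_open Ord_convex FM FM_real Qg_eval Ord_real)
open Pool.Agent.N121.AH
open Pool.Agent.N121.OH (rp rp_monic rp_natDegree coeff_big)

variable {n : ℕ}

/-- the kernel of the intersection matrix for odd `n` -/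
noncomputable def nu (K : Type*) [Ring K] (n : ℕ) (i : Fin n) : K := if Even (i : ℕ) then (-1) ^ ((i : ℕ) / 2) else 0

theorem ext0_nu (i : ℕ) : ext0 (nu ℂ n) i = if i < n ∧ Even i then (-1) ^ (i / 2) else 0 := by
  unfold ext0 nu
  by_cases h : i < n
  · rw [dif_pos h]
    simp only [h, true_and]
  · rw [dif_neg h, if_neg fun h2 => h h2.1]

theorem jm_nu (hn : Odd n) : jm ℂ n *ᵥ nu ℂ n = 0 := by
  funext r
  rw [jm_mulVec, Pi.zero_apply, ext0_nu, ext0_nu]
  have hr := r.2
  obtain ⟨g, hg⟩ := hn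
  rcases Nat.even_or_odd (r : ℕ) with he | ho
  · have h1 : ¬ (((r : ℕ) + 1 < n) ∧ Even ((r : ℕ) + 1)) := fun h => (Nat.not_even_iff_odd.2 he.add_one) h.2
    rw [if_neg h1, add_zero]
    by_cases h0 : (r : ℕ) = 0
    · rw [if_pos h0, mul_zero]
    · rw [if_neg h0]
      have h2 : ¬ (((r : ℕ) - 1 < n) ∧ Even ((r : ℕ) - 1)) := by
        rintro ⟨_, h3⟩
        obtain ⟨a, ha⟩ := he
        obtain ⟨b, hb⟩ := h3
        omega
      rw [if_neg h2, mul_zero]
  · obtain ⟨k, hk⟩ := ho
    have h1 : ((r : ℕ) + 1 < n) ∧ Even ((r : ℕ) + 1) := ⟨by omega, ⟨k + 1, by omega⟩⟩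
    have h2 : ((r : ℕ) - 1 < n) ∧ Even ((r : ℕ) - 1) := ⟨by omega, ⟨k, by omega⟩⟩
    rw [if_neg (by omega), if_pos h1, if_pos h2]
    have h3 : ((r : ℕ) + 1) / 2 = k + 1 := by omega
    have h4 : ((r : ℕ) - 1) / 2 = k := by omega
    rw [h3, h4, pow_succ]
    ring

/-- the periods over the loop at infinity -/
noncomputable def rho (e : Fin (n + 1) → ℂ) (k : Fin n) : ℂ := ∑ i, nu ℂ n i * FM e i k

theorem rho_eq (e : Fin (n + 1) → ℂ) : rho e = nu ℂ n ᵥ* FM e := rfl

theorem rho_an (k : Fin n) : AnalyticOnNhd ℂ (fun e : Fin (n + 1) → ℂ => rho e k) (Ord n) := by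
  intro e he
  unfold rho
  refine Finset.analyticAt_fun_sum _ fun i _ => ?_
  exact analyticAt_const.mul (Pool.Agent.Y890.HE.fH_an (i, k) e he)

/-- the forms of the second kind have no residue at infinity -/
theorem rho_cf (hn : Odd n) {e : Fin (n + 1) → ℂ} (he : e ∈ Ord n) : rho e ᵥ* cf n (rp e) = 0 := by
  have h0 := legendreGC he
  rw [Qg_eval] at h0
  have hq : (∏ i : Fin (n + 1), (Polynomial.X - Polynomial.C (e i))) = rp e := rfl
  rw [hq, ← cf_q0 (rp e) fun m hm => coeff_big e hm] at h0
  have hc : ((-1) ^ n * Real.pi : ℂ) ≠ 0 :=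
    mul_ne_zero (pow_ne_zero _ (by norm_num)) (by exact_mod_cast Real.pi_ne_zero)
  set X : Matrix (Fin (mm n)) (Fin n) ℂ := (FM e).submatrix cst id with hX
  set P : Matrix (Fin (mm n)) (Fin (mm n)) ℂ := X * cf n (rp e) with hP
  -- the restriction to the first rows
  have h1 : P * (q0 ℂ n * P.transpose) = ((-1) ^ n * Real.pi : ℂ) • jm ℂ (mm n) := by
    have h2 : P * (q0 ℂ n * P.transpose) = X * (cf n (rp e) * q0 ℂ n * (cf n (rp e)).transpose) * X.transpose := by
      rw [hP, Matrix.transpose_mul]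
      simp only [Matrix.mul_assoc]
    rw [h2]
    have h3 : X * (cf n (rp e) * q0 ℂ n * (cf n (rp e)).transpose) * X.transpose =
        (FM e * (cf n (rp e) * q0 ℂ n * (cf n (rp e)).transpose) * (FM e).transpose).submatrix cst cst := by
      ext r s
      simp only [hX, Matrix.mul_apply, Matrix.submatrix_apply, Matrix.transpose_apply, id]
    rw [h3, h0]
    ext r s
    rfl
  have hdet : (q0 ℂ n * P.transpose).det ≠ 0 := by
    intro h2
    have h3 := congrArg Matrix.det h1
    rw [Matrix.det_mul, h2, mul_zero, Matrix.det_smul] at h3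
    exact mul_ne_zero (pow_ne_zero _ hc) (jm_det (mm_even n)) h3.symm
  refine Matrix.eq_zero_of_vecMul_eq_zero hdet ?_
  -- the kernel
  have h4 : nu ℂ n ᵥ* (FM e * (cf n (rp e) * q0 ℂ n * (cf n (rp e)).transpose) * (FM e).transpose) = 0 := by
    rw [h0, Matrix.vecMul_smul]
    have h5 : nu ℂ n ᵥ* jm ℂ n = 0 := by
      rw [← Matrix.mulVec_transpose, jm_transpose, Matrix.neg_mulVec, jm_nu hn, neg_zero]
    rw [h5, smul_zero]
  have h6 : (rho e ᵥ* cf n (rp e)) ᵥ* (q0 ℂ n * P.transpose) =
      fun s => (nu ℂ n ᵥ* (FM e * (cf n (rp e) * q0 ℂ n * (cf n (rp e)).transpose) * (FM e).transpose)) (cst s) := by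
    rw [rho_eq, hP, Matrix.transpose_mul, Matrix.vecMul_vecMul, Matrix.vecMul_vecMul]
    have h7 : FM e * (cf n (rp e) * (q0 ℂ n * ((cf n (rp e)).transpose * X.transpose))) =
        (FM e * (cf n (rp e) * q0 ℂ n * (cf n (rp e)).transpose)) * X.transpose := by
      simp only [Matrix.mul_assoc]
    rw [h7]
    funext s
    have h8 : ∀ v : Fin n → ℂ, (v ᵥ* X.transpose) s = (v ᵥ* (FM e).transpose) (cst s) := fun v => rfl
    rw [← Matrix.vecMul_vecMul _ _ X.transpose, h8, Matrix.vecMul_vecMul]
  rw [h6, h4]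
  rfl

/-- all the residues at infinity are multiples of one of them -/
theorem rho_zero (hn : Odd n) {e : Fin (n + 1) → ℂ} (he : e ∈ Ord n) (hlt : n / 2 < n) (h0 : rho e ⟨n / 2, hlt⟩ = 0) :
    ∀ k, rho e k = 0 := by
  have hcf := rho_cf hn he
  obtain ⟨g, hg⟩ := hn
  have hg2 : n / 2 = g := by omega
  have h1 : ∀ i : Fin (mm n), ∑ k, rho e k * cf n (rp e) k i = 0 := fun i => congrFun hcf i
  -- the forms of the first kind
  have h2 : ∀ k : Fin n, (k : ℕ) < g → rho e k = 0 := by
    intro k hk
    have h3 := h1 ⟨k, by show (k : ℕ) < 2 * (n / 2); omega⟩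
    rw [Finset.sum_eq_single k] at h3
    · unfold cf at h3
      rw [Matrix.of_apply, if_pos (by show (k : ℕ) < n / 2; omega), if_pos rfl, mul_one] at h3
      exact h3
    · intro b _ hb
      unfold cf
      rw [Matrix.of_apply, if_pos (by show (k : ℕ) < n / 2; omega), if_neg (fun h => hb (Fin.ext h)), mul_zero]
    · intro h
      exact absurd (Finset.mem_univ _) h
  have h3 : ∀ j : ℕ, ∀ k : Fin n, (k : ℕ) = g + j → rho e k = 0 := by
    intro j
    induction j using Nat.strong_induction_on with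
    | _ j ih =>
      intro k hk
      rcases Nat.eq_zero_or_pos j with hj | hj
      · have : k = ⟨n / 2, hlt⟩ := Fin.ext (by show (k : ℕ) = n / 2; omega)
        rw [this]
        exact h0
      · have hk2 := k.2
        have h4 := h1 ⟨g + (g - j), by show _ < 2 * (n / 2); omega⟩
        rw [Finset.sum_eq_single k] at h4
        · unfold cf at h4
          rw [Matrix.of_apply, if_neg (by show ¬ g + (g - j) < n / 2; omega)] at h4
          have h5 : g + (g - j) - n / 2 = g - j := by omega
          simp only [h5] at h4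
          rw [if_pos (by omega)] at h4
          have h6 : g - j + (k : ℕ) + 2 = n + 1 := by omega
          have h7 : (rp e).coeff (n + 1) = 1 := by
            have h8 : (rp e).leadingCoeff = 1 := rp_monic e
            rw [Polynomial.leadingCoeff, rp_natDegree] at h8
            exact h8
          rw [h6, h7, mul_one] at h4
          have h8 : (((g - j : ℕ) : ℂ) - ((k : ℕ) : ℂ)) / 2 = -(j : ℂ) := by
            rw [hk, Nat.cast_sub (by omega)]
            push_cast
            ring
          rw [h8] at h4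
          have h9 : (-(j : ℂ)) ≠ 0 := neg_ne_zero.2 (by exact_mod_cast hj.ne')
          exact (mul_eq_zero.1 h4).resolve_right h9
        · intro b _ hb
          have hb2 := b.2
          rcases lt_or_ge (b : ℕ) (g + j) with h5 | h5
          · rcases lt_or_ge (b : ℕ) g with h6 | h6
            · rw [h2 b h6, zero_mul]
            · rw [ih ((b : ℕ) - g) (by omega) b (by omega), zero_mul]
          · have h6 : (b : ℕ) ≠ k := fun h => hb (Fin.ext h)
            have h7 : (rp e).coeff (g + (g - j) - n / 2 + (b : ℕ) + 2) = 0 := coeff_big e (by omega)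
            unfold cf
            rw [Matrix.of_apply, if_neg (by show ¬ g + (g - j) < n / 2; omega)]
            simp only
            rw [h7, mul_zero, ite_self, mul_zero]
        · intro h
          exact absurd (Finset.mem_univ _) h
  intro k
  rcases lt_or_ge (k : ℕ) g with h | h
  · exact h2 k h
  · exact h3 ((k : ℕ) - g) k (by omega)

/-- the polynomial with alternating signs on the intervals -/
noncomputable def altP (g : ℕ) (e : ℕ → ℝ) : Polynomial ℝ :=
  ∏ j ∈ Finset.range g, (Polynomial.C (e (2 * (j + 1))) - Polynomial.X)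

theorem altP_degree (g : ℕ) (e : ℕ → ℝ) : (altP g e).natDegree ≤ g := by
  unfold altP
  refine (Polynomial.natDegree_prod_le _ _).trans ?_
  refine (Finset.sum_le_card_nsmul _ _ 1 fun j _ => ?_).trans (by simp)
  refine (Polynomial.natDegree_sub_le _ _).trans ?_
  simp

theorem altP_sign {g : ℕ} {e : ℕ → ℝ} (he : StrictMono e) {i : ℕ} {x : ℝ} (h1 : e (2 * i) < x) (h2 : x < e (2 * i + 1)) :
    0 < (-1) ^ i * (altP g e).eval x ∨ g < i := by
  by_cases hgi : g < i
  · exact Or.inr hgi
  left
  push Not at hgi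
  unfold altP
  rw [Polynomial.eval_prod]
  have h3 : ∀ j ∈ Finset.range g, (Polynomial.C (e (2 * (j + 1))) - Polynomial.X).eval x = e (2 * (j + 1)) - x := by
    intro j _
    simp
  rw [Finset.prod_congr rfl h3]
  have h4 : ∏ j ∈ Finset.range g, (e (2 * (j + 1)) - x) =
      (∏ j ∈ Finset.range i, (e (2 * (j + 1)) - x)) * ∏ j ∈ Finset.Ico i g, (e (2 * (j + 1)) - x) := by
    rw [Finset.prod_range_mul_prod_Ico _ hgi]
  rw [h4]
  have h5 : (-1 : ℝ) ^ i * ∏ j ∈ Finset.range i, (e (2 * (j + 1)) - x) =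
      ∏ j ∈ Finset.range i, (x - e (2 * (j + 1))) := by
    have h6 : (-1 : ℝ) ^ i = ∏ _j ∈ Finset.range i, (-1 : ℝ) := by simp
    rw [h6, ← Finset.prod_mul_distrib]
    refine Finset.prod_congr rfl fun j _ => ?_
    ring
  rw [← mul_assoc, h5]
  refine mul_pos (Finset.prod_pos fun j hj => ?_) (Finset.prod_pos fun j hj => ?_)
  · have h7 : e (2 * (j + 1)) ≤ e (2 * i) := he.monotone (by
      have := Finset.mem_range.1 hj
      omega)
    linarith
  · have h7 : e (2 * i + 1) < e (2 * (j + 1)) := he (by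
      have := Finset.mem_Ico.1 hj
      omega)
    linarith

/-- extension of the branch points -/
noncomputable def exE (e : Fin (n + 1) → ℝ) (i : ℕ) : ℝ := if h : i < n + 1 then e ⟨i, h⟩ else e (Fin.last n) + (i : ℝ)

theorem exE_mono {e : Fin (n + 1) → ℝ} (he : StrictMono e) : StrictMono (exE e) := by
  refine strictMono_nat_of_lt_succ fun i => ?_
  unfold exE
  by_cases h1 : i + 1 < n + 1
  · rw [dif_pos (by omega), dif_pos h1]
    exact he (Fin.mk_lt_mk.2 (Nat.lt_succ_self i))
  · rw [dif_neg h1]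
    by_cases h2 : i < n + 1
    · rw [dif_pos h2]
      have h3 : (⟨i, h2⟩ : Fin (n + 1)) = Fin.last n := Fin.ext (by show i = n; omega)
      rw [h3]
      push_cast
      have : (0 : ℝ) ≤ i := Nat.cast_nonneg _
      linarith
    · rw [dif_neg h2]
      push_cast
      linarith

theorem exE_cast (e : Fin (n + 1) → ℝ) (i : Fin n) : exE e (i : ℕ) = e i.castSucc := by
  unfold exE
  rw [dif_pos (by have := i.2; omega)]
  rfl

theorem exE_succ (e : Fin (n + 1) → ℝ) (i : Fin n) : exE e ((i : ℕ) + 1) = e i.succ := by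
  unfold exE
  rw [dif_pos (by have := i.2; omega)]
  rfl

/-- the integral of a polynomial over a gap -/
theorem sum_perT {e : Fin (n + 1) → ℝ} (he : StrictMono e) (i : Fin n) (p : Polynomial ℝ) (hp : p.natDegree < n) :
    ∑ k : Fin n, p.coeff k * perT e i k =
      ∫ θ in (0 : ℝ)..(Real.pi / 2), 2 * (p.eval (xs e i θ) / √(Wf e i (xs e i θ))) := by
  unfold perT
  simp only [← intervalIntegral.integral_const_mul]
  rw [← intervalIntegral.integral_finsetSum]
  · refine intervalIntegral.integral_congr fun θ _ => ?_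
    beta_reduce
    rw [Polynomial.eval_eq_sum_range' hp, Finset.sum_range]
    rw [Finset.sum_div, Finset.mul_sum]
    refine Finset.sum_congr rfl fun k _ => ?_
    ring
  · intro k _
    refine ContinuousOn.intervalIntegrable ?_
    have h1 : ∀ θ : ℝ, √(Wf e i (xs e i θ)) ≠ 0 := fun θ =>
      (Real.sqrt_pos.2 (Wf_pos he (xs_mem he i θ).1 (xs_mem he i θ).2)).ne'
    have h2 := continuous_xs e i
    have h3 := (continuous_Wf e i).comp h2
    have h4 : Continuous fun θ => √(Wf e i (xs e i θ)) := h3.sqrt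
    exact (continuous_const.mul (continuous_const.mul ((h2.pow _).div h4 h1))).continuousOn

theorem gap_pos {g : ℕ} (hg : n = 2 * g + 1) {e : Fin (n + 1) → ℝ} (he : StrictMono e) {i : Fin n} (hi : Even (i : ℕ)) :
    0 < (-1) ^ ((i : ℕ) / 2) * ∑ k : Fin n, (altP g (exE e)).coeff k * perT e i k := by
  have hdeg : (altP g (exE e)).natDegree < n := lt_of_le_of_lt (altP_degree _ _) (by omega)
  rw [sum_perT he i _ hdeg, ← intervalIntegral.integral_const_mul]
  obtain ⟨m, hm⟩ := hi
  have hm2 : (i : ℕ) / 2 = m := by omega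
  have hi2 := i.2
  have h1 : ∀ θ : ℝ, √(Wf e i (xs e i θ)) ≠ 0 := fun θ =>
    (Real.sqrt_pos.2 (Wf_pos he (xs_mem he i θ).1 (xs_mem he i θ).2)).ne'
  have h2 := continuous_xs e i
  have h3 := (continuous_Wf e i).comp h2
  have h4 : Continuous fun θ => √(Wf e i (xs e i θ)) := h3.sqrt
  refine intervalIntegral.intervalIntegral_pos_of_pos_on ?_ ?_ (by positivity)
  · refine ContinuousOn.intervalIntegrable ?_
    exact (continuous_const.mul (continuous_const.mul (((altP g (exE e)).continuous.comp h2).div h4 h1))).continuousOn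
  · intro θ hθ
    have h5 : 0 < Real.sin θ := Real.sin_pos_of_pos_of_lt_pi hθ.1 (by linarith [hθ.2, Real.pi_pos])
    have h6 : 0 < Real.cos θ := Real.cos_pos_of_mem_Ioo ⟨by linarith [hθ.1, Real.pi_pos], hθ.2⟩
    have h7 : Real.sin θ ^ 2 < 1 := by nlinarith [Real.sin_sq_add_cos_sq θ]
    have hL := len_pos he i
    have h8 : e i.castSucc < xs e i θ := by
      unfold xs
      have : 0 < (e i.succ - e i.castSucc) * Real.sin θ ^ 2 := by positivity
      linarith
    have h9 : xs e i θ < e i.succ := by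
      unfold xs
      nlinarith
    rw [← exE_cast e i, hm, ← two_mul] at h8
    rw [← exE_succ e i, hm, ← two_mul] at h9
    have h10 := altP_sign (g := g) (exE_mono he) h8 h9
    have h11 := h10.resolve_right (by omega)
    have h12 : 0 < √(Wf e i (xs e i θ)) := Real.sqrt_pos.2 (Wf_pos he (xs_mem he i θ).1 (xs_mem he i θ).2)
    rw [hm2]
    have h13 : (-1) ^ m * (2 * ((altP g (exE e)).eval (xs e i θ) / √(Wf e i (xs e i θ)))) =
        2 * (((-1) ^ m * (altP g (exE e)).eval (xs e i θ)) / √(Wf e i (xs e i θ))) := by ring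
    rw [h13]
    positivity

theorem rho_real (e : Fin (n + 1) → ℝ) (he : StrictMono e) (k : Fin n) :
    rho (fun i => (e i : ℂ)) k = ((∑ i, nu ℝ n i * perT e i k : ℝ) : ℂ) := by
  unfold rho
  rw [FM_real he]
  push_cast
  refine Finset.sum_congr rfl fun i _ => ?_
  rw [Matrix.map_apply]
  unfold nu perM
  rw [Matrix.of_apply, per_eq_perT he]
  split_ifs
  · push_cast
    rfl
  · push_cast
    rfl

/-- the residue does not vanish at the real points -/
theorem rho_ne (hn : Odd n) {e : Fin (n + 1) → ℝ} (he : StrictMono e) (hlt : n / 2 < n) :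
    rho (fun i => (e i : ℂ)) ⟨n / 2, hlt⟩ ≠ 0 := by
  intro h0
  have h1 := rho_zero hn (Ord_real he) hlt h0
  obtain ⟨g, hg⟩ := hn
  have h2 : ∀ k : Fin n, ∑ i, nu ℝ n i * perT e i k = 0 := by
    intro k
    have h3 := h1 k
    rw [rho_real e he] at h3
    exact_mod_cast h3
  have h3 : ∑ k : Fin n, (altP g (exE e)).coeff k * ∑ i, nu ℝ n i * perT e i k = 0 := by
    refine Finset.sum_eq_zero fun k _ => ?_
    rw [h2, mul_zero]
  have h4 : ∑ k : Fin n, (altP g (exE e)).coeff k * ∑ i, nu ℝ n i * perT e i k =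
      ∑ i : Fin n, nu ℝ n i * ∑ k : Fin n, (altP g (exE e)).coeff k * perT e i k := by
    simp only [Finset.mul_sum]
    rw [Finset.sum_comm]
    refine Finset.sum_congr rfl fun i _ => Finset.sum_congr rfl fun k _ => ?_
    ring
  rw [h4] at h3
  have h5 : 0 < ∑ i : Fin n, nu ℝ n i * ∑ k : Fin n, (altP g (exE e)).coeff k * perT e i k := by
    refine Finset.sum_pos' (fun i _ => ?_) ⟨⟨0, by omega⟩, Finset.mem_univ _, ?_⟩
    · unfold nu
      split_ifs with hi
      · exact (gap_pos hg he hi).le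
      · rw [zero_mul]
    · unfold nu
      rw [if_pos (by show Even 0; exact Even.zero)]
      exact gap_pos hg he (by show Even 0; exact Even.zero)
  exact h5.ne' h3

end Pool.Agent.N121.OC
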