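import Pool.Agent.N121.OC.Mon
import Pool.Agent.N121.BF.Pull

/-!
# The torsor of the periods of tuples of affine curves
-/

set_option autoImplicit false
set_option linter.unusedSectionVars false

open Filter Matrix Topology Polynomial

namespace Pool.Agent.N121.OC

open Pool.Agent.Y118.HP (jm jm_apply SpS jm_det jm_transpose jm_map qm dl dl_ne bm bm_eq perC TV jm_mulVec ext0)
open Pool.Agent.Y890.MV
open Pool.Agent.Y890.HE
open Pool.Agent.Y890.SM
open Pool.Agent.N121.OH
open Pool.Agent.N121.AH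
open Pool.Agent.N121.BF

section general

variable {X σ φ : Type} [Fintype X] {U : Set (X → ℂ)} {f : σ → (X → ℂ) → ℂ} {Tor : (X → ℂ) → Set (σ → ℂ)}

/-- adding free coordinates to a torsor -/
theorem torFree (hT : TorM U f Tor) (fr : φ → (X → ℂ) → ℂ)
    (hfree : ∀ p : MvPolynomial (σ ⊕ φ) (MvPolynomial X ℂ),
      (∀ x ∈ U, evX x (Sum.elim (fun s => f s x) (fun s => fr s x)) p = 0) →
      ∀ x ∈ U, ∀ z : φ → ℂ, evX x (Sum.elim (fun s => f s x) z) p = 0) :
    TorM U (Sum.elim f fr) (fun x => {Y | (fun s => Y (Sum.inl s)) ∈ Tor x}) := by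
  classical
  have hs : ∀ x : X → ℂ, (fun s => Sum.elim f fr s x) = Sum.elim (fun s => f s x) (fun s => fr s x) := by
    intro x
    funext s
    rcases s with s | s <;> rfl
  refine ⟨fun x hx => hT.self x hx, ?_, ?_, ?_⟩
  · intro p hp x hx Y hY
    have h1 : ∀ x ∈ U, evX x (Sum.elim (fun s => f s x) (fun s => fr s x)) p = 0 := by
      intro x hx
      rw [← hs]
      exact hp x hx
    have h2 := hT.inv (spz (fun s => Y (Sum.inr s)) p) (fun x hx => by
      rw [evM_eq, spz_ev]
      exact hfree p h1 x hx _) x hx (fun s => Y (Sum.inl s)) hY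
    rw [spz_ev] at h2
    have h4 : Sum.elim (fun q => Y (Sum.inl q)) (fun c => Y (Sum.inr c)) = Y := Sum.elim_comp_inl_inr Y
    rw [h4] at h2
    exact h2
  · intro x hx Y hY
    obtain ⟨γ, h0, h1, h2⟩ := hT.path x hx _ hY
    refine ⟨Sum.elim γ (fun c => Polynomial.C (fr c x) +
      Polynomial.X * Polynomial.C (Y (Sum.inr c) - fr c x)), ?_, ?_, ?_⟩
    · rintro (q | q)
      · exact h0 q
      · simp
    · rintro (q | q)
      · exact h1 q
      · simp
    · intro t
      exact h2 t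
  · obtain ⟨c, hc, hsec⟩ := hT.sec
    refine ⟨c, hc, ?_⟩
    intro x0 hx0 hc0 Y0 hY0
    obtain ⟨v, hv, hv0⟩ := hsec x0 hx0 hc0 _ hY0
    refine ⟨Sum.elim v (fun q => MvPolynomial.C (Y0 (Sum.inr q)) * c), ?_, ?_⟩
    · intro x hx hcx
      exact hv x hx hcx
    · rintro (q | q)
      · exact hv0 q
      · simp only [Sum.elim_inr, map_mul, MvPolynomial.eval_C]
        exact mul_div_cancel_right₀ _ hc0

end general

variable {ι : Type} {n : ι → ℕ}

/-- the indices of the periods of the third kind -/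
abbrev Fr (n : ι → ℕ) : Type := Σ i, Fin (n i % 2) × Fin (mi n i)

/-- the indices of all periods -/
abbrev EX (n : ι → ℕ) : Type := Ix (mi n) ⊕ Fr n

/-- the periods of the third kind -/
noncomputable def fr (n : ι → ℕ) (s : Fr n) (a : (Σ i, Fin (n i + 2)) → ℂ) : ℂ := fT (pj a s.1) s.2


theorem fT_diff {m : ℕ} (q : Fin (m % 2) × Fin (mm m)) :
    DifferentiableOn ℂ (fun a : Fin (m + 2) → ℂ => fT a q) (U2 m) := by
  unfold fT PG
  simp only [Matrix.smul_apply, smul_eq_mul]
  exact scf_diff.mul (PE_diff (cst q.2) (gx q.1))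

theorem fT_an {m : ℕ} (q : Fin (m % 2) × Fin (mm m)) :
    AnalyticOnNhd ℂ (fun a : Fin (m + 2) → ℂ => fT a q) (U2 m) :=
  Pool.Agent.Y785.MV.Osg.t _ _ (U2_open m) _ (fT_diff q)

variable [Fintype ι] [DecidableEq ι]

theorem fr_an (s : Fr n) : AnalyticOnNhd ℂ (fr n s) (UU n) :=
  fSig_an (f' := fun i (q : Fin (n i % 2) × Fin (mi n i)) a => fT a q)
    (U' := fun i => U2 (n i)) (fun i s => fT_an s) s

/-- **the periods of the third kind are free: tuples of curves** -/
theorem free_prod (p : MvPolynomial (EX n) (MvPolynomial (Σ i, Fin (n i + 2)) ℂ))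
    (hp : ∀ a ∈ UU n, evX a (Sum.elim (fun s => (ahF n).f s a) (fun s => fr n s a)) p = 0) :
    ∀ a ∈ UU n, ∀ z : Fr n → ℂ, evX a (Sum.elim (fun s => (ahF n).f s a) z) p = 0 := by
  classical
  intro a ha z
  set ψ : EX n → Σ i, EI (n i) := Sum.elim (fun q => ⟨q.1, Sum.inl q.2⟩) (fun q => ⟨q.1, Sum.inr q.2⟩) with hψ
  have hren : ∀ (a : (Σ i, Fin (n i + 2)) → ℂ) (Y : (Σ i, EI (n i)) → ℂ),
      evX a Y (MvPolynomial.rename ψ p) = evX a (Y ∘ ψ) p := by
    intro a Y
    unfold evX
    rw [MvPolynomial.eval₂_rename]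
  have h1 := inv_sig (U' := fun i => U2 (n i)) (f' := fun i a => fE a)
    (A := fun i Z => Sum.elim (fun q => Z (Sum.inl q)) (fun q => z ⟨i, q⟩)) (fun i p hp a ha => by
      exact free_one p hp (fun q => z ⟨i, q⟩) a ha) (MvPolynomial.rename ψ p) (by
      intro a ha
      rw [hren]
      have h2 := hp a ha
      rw [← h2]
      congr 1
      funext s
      rcases s with s | s <;> rfl) a ha
  rw [hren] at h1
  rw [← h1]
  congr 1
  funext s
  rcases s with s | s <;> rfl

end Pool.Agent.N121.OC
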